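import Pool.Agent.Helper29.LDV.Build

/-!
# LDV/Main: the two theorems
-/

set_option autoImplicit false

namespace Pool.Agent.Helper29.LDV

open Pool.Agent.Helper51.Pell

private theorem large_prime {F c j p n : ℕ} (hp : p.Prime) (hpd : p ∣ 1 + c * n.factorial * j) (hF : F = n.factorial) :
    n < p := by
  by_contra hcon
  push Not at hcon
  have h1 : p ∣ n.factorial := (hp.dvd_factorial).2 hcon
  have h2 : p ∣ c * n.factorial * j := (h1.mul_left c).mul_right j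
  exact hp.one_lt.ne' (Nat.dvd_one.1 ((Nat.dvd_add_left h2).1 hpd))

private theorem alg_id (S T R Q : ℤ) (κ : ℕ) :
    4 * (S ^ (2 * κ + 1) * R) * (T ^ (2 * κ + 1) * Q) + 1 = (2 * (T * S) ^ κ) ^ 2 * (T * S * (R * Q)) + 1 := by
  ring

/-- infinitely many pairs with the better exponent -/
theorem partB (κ B : ℕ) :
    ∃ m d : ℕ, B < m ∧ Squarefree d ∧ m ∣ d ∧ m % 2 = 1 ∧ d ≤ (64 * m) ^ (2 * κ + 1) ∧
      ∃ t u : ℤ, IsFundamental d t u ∧ ((m : ℤ) ^ κ) ∣ u := by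
  set n := 4 * κ + 1 with hn
  set F := n.factorial with hF
  have hF0 : 0 < F := Nat.factorial_pos n
  obtain ⟨j, hj, s1, s2⟩ := exists_both_squarefree 1 (4 * F) 1 (2 * F) (Nat.coprime_one_left _) (by norm_num)
    (by omega) (Nat.coprime_one_left _) (by norm_num) (by omega) (2 ^ (12 * κ + 7) + B)
  have hjF : j ≤ F * j := Nat.le_mul_of_pos_left j hF0
  set y := 1 + 2 * F * j with hy
  set T := 1 + 4 * F * j with hT
  have hTy : T + 1 = 2 * y := by rw [hy, hT]; ring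
  have hybig : 2 ^ (12 * κ + 7) + B < y := by
    have : y = 1 + 2 * (F * j) := by rw [hy]; ring
    omega
  have h128 : 2 ^ 7 ≤ 2 ^ (12 * κ + 7) := Nat.pow_le_pow_right (by norm_num) (by omega)
  norm_num at h128
  have hyT : y ≤ T := by omega
  have hcop : Nat.Coprime T y := by
    rw [Nat.coprime_iff_gcd_eq_one]
    have h1 : Nat.gcd T y ∣ T + 1 := by rw [hTy]; exact (Nat.gcd_dvd_right _ _).mul_left 2
    exact Nat.dvd_one.1 ((Nat.dvd_add_right (Nat.gcd_dvd_left T y)).1 h1)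
  have hPT : ∀ p : ℕ, p.Prime → p ∣ T → n < p := fun p hp hpT => large_prime hp hpT hF
  have hPy : ∀ p : ℕ, p.Prime → p ∣ y → n < p := fun p hp hpT => large_prime hp hpT hF
  have hTodd : T % 2 = 1 := by
    have : T = 1 + 2 * (2 * (F * j)) := by rw [hT]; ring
    omega
  have hyodd : y % 2 = 1 := by
    have : y = 1 + 2 * (F * j) := by rw [hy]; ring
    omega
  -- the integer quantities
  have hT2 : (2 : ℤ) ≤ (T : ℤ) := by exact_mod_cast (by omega : 2 ≤ T)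
  have hRQ := RQ_pos κ hT2
  set R := RR κ (T : ℤ) with hR
  set Q := QQ κ (T : ℤ) with hQ
  set E := (R * Q).toNat with hE
  have hEz : (E : ℤ) = R * Q := Int.toNat_of_nonneg hRQ.le
  set X := (2 * (1 + (T : ℤ)) ^ (2 * κ + 1) * R - 1).natAbs with hX
  have hXz : (X : ℤ) = |2 * (1 + (T : ℤ)) ^ (2 * κ + 1) * R - 1| := Int.natCast_natAbs _
  have hid := ident κ (T : ℤ)
  rw [← hR, ← hQ] at hid
  have hTyz : (1 : ℤ) + T = 2 * y := by
    have : ((T + 1 : ℕ) : ℤ) = ((2 * y : ℕ) : ℤ) := by rw [hTy]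
    push_cast at this
    linarith
  have hX2z : (X : ℤ) ^ 2 = (2 * (T * (1 + T)) ^ κ) ^ 2 * (T * (1 + T) * (R * Q)) + 1 := by
    rw [hXz, sq_abs]
    have e1 : (2 * (1 + (T : ℤ)) ^ (2 * κ + 1) * R - 1) ^ 2 =
        4 * ((1 + (T : ℤ)) ^ (2 * κ + 1) * R) * ((1 + (T : ℤ)) ^ (2 * κ + 1) * R - 1) + 1 := by ring
    have e2 : (1 + (T : ℤ)) ^ (2 * κ + 1) * R - 1 = (T : ℤ) ^ (2 * κ + 1) * Q := by rw [hid]; ring
    rw [e1, e2]
    exact alg_id _ _ _ _ κ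
  have hX2 : X ^ 2 = (2 * (2 * (T * y)) ^ κ) ^ 2 * (T * y * (2 * E)) + 1 := by
    have : ((X ^ 2 : ℕ) : ℤ) = (((2 * (2 * (T * y)) ^ κ) ^ 2 * (T * y * (2 * E)) + 1 : ℕ) : ℤ) := by
      push_cast
      rw [hX2z, hEz, hTyz, show (T : ℤ) * (2 * y) = 2 * (T * y) by ring]
      ring
    exact_mod_cast this
  have hm : Squarefree (T * y) := (Nat.squarefree_mul hcop).2 ⟨s1, s2⟩
  have hTy1 : y * y ≤ T * y := Nat.mul_le_mul_right y hyT
  have hyy : y ≤ y * y := Nat.le_mul_self y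
  have hmodd : (T * y) % 2 = 1 := by rw [Nat.mul_mod, hTodd, hyodd]
  have hPm : ∀ p : ℕ, p.Prime → p ∣ T * y → n < p := fun p hp hpm =>
    ((hp.dvd_mul).1 hpm).elim (hPT p hp) (hPy p hp)
  have hcE : Nat.Coprime (T * y) (2 * E) := by
    rw [Nat.coprime_iff_gcd_eq_one]
    by_contra hg
    obtain ⟨p, hp, hpg⟩ := Nat.exists_prime_and_dvd hg
    have h1 : p ∣ T * y := hpg.trans (Nat.gcd_dvd_left _ _)
    have h2 : p ∣ 2 * E := hpg.trans (Nat.gcd_dvd_right _ _)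
    have hnp : 4 * κ + 1 < p := hPm p hp h1
    have hp2 : p ≠ 2 := by
      rintro rfl
      have := Nat.mod_eq_zero_of_dvd h1
      omega
    have hpZ : Prime (p : ℤ) := Nat.prime_iff_prime_int.1 hp
    have h3 : p ∣ E := by
      rcases (hp.dvd_mul).1 h2 with h | h
      · exact absurd ((Nat.prime_dvd_prime_iff_eq hp Nat.prime_two).1 h) hp2
      · exact h
    have h4 : (p : ℤ) ∣ R * Q := by
      rw [← hEz]
      exact_mod_cast h3
    rcases (hp.dvd_mul).1 h1 with h | h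
    · have h5 : (p : ℤ) ∣ (T : ℤ) := by exact_mod_cast h
      rcases hpZ.dvd_or_dvd h4 with h6 | h6
      · exact RR_of_dvd' hp h5 h6
      · exact QQ_of_dvd hp hnp h5 h6
    · have h5 : (p : ℤ) ∣ 1 + (T : ℤ) := by
        rw [hTyz]
        exact (Int.natCast_dvd_natCast.2 h).mul_left 2
      rcases hpZ.dvd_or_dvd h4 with h6 | h6
      · exact RR_of_dvd hp hnp h5 h6
      · exact QQ_of_dvd' hp h5 h6
  have hT0 : (0 : ℤ) ≤ (T : ℤ) := by positivity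
  have hRb := RR_bound κ hT0
  have hQb := QQ_bound κ hT0
  rw [← hR, hTyz] at hRb
  rw [← hQ, hTyz] at hQb
  -- size of X
  have hXb : X ≤ 2 ^ (8 * κ + 4) * y ^ (4 * κ + 1) := by
    have h1 : (X : ℤ) ≤ 2 * (1 + (T : ℤ)) ^ (2 * κ + 1) * |R| + 1 := by
      rw [hXz]
      calc |2 * (1 + (T : ℤ)) ^ (2 * κ + 1) * R - 1| ≤ |2 * (1 + (T : ℤ)) ^ (2 * κ + 1) * R| + |1| := abs_sub _ _
        _ = 2 * (1 + (T : ℤ)) ^ (2 * κ + 1) * |R| + 1 := by
            rw [abs_mul, abs_of_nonneg (by positivity : (0 : ℤ) ≤ 2 * (1 + (T : ℤ)) ^ (2 * κ + 1)), abs_one]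
    have h2 : 2 * (1 + (T : ℤ)) ^ (2 * κ + 1) * |R| ≤ 2 * (1 + (T : ℤ)) ^ (2 * κ + 1) * (2 ^ (4 * κ + 1) * (2 * (y : ℤ)) ^ (2 * κ)) :=
      mul_le_mul_of_nonneg_left hRb (by positivity)
    have h3 : 2 * (1 + (T : ℤ)) ^ (2 * κ + 1) * (2 ^ (4 * κ + 1) * (2 * (y : ℤ)) ^ (2 * κ)) =
        2 ^ (8 * κ + 3) * (y : ℤ) ^ (4 * κ + 1) := by
      rw [hTyz, mul_pow, mul_pow, show 8 * κ + 3 = 1 + (2 * κ + 1) + (4 * κ + 1) + 2 * κ by ring, pow_add, pow_add,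
        pow_add, show 4 * κ + 1 = (2 * κ + 1) + 2 * κ by ring, pow_add (y : ℤ)]
      ring
    have h4 : (1 : ℤ) ≤ 2 ^ (8 * κ + 3) * (y : ℤ) ^ (4 * κ + 1) := by
      have : 0 < 2 ^ (8 * κ + 3) * y ^ (4 * κ + 1) := by
        have : 0 < y := by omega
        positivity
      exact_mod_cast this
    have h5 : (X : ℤ) ≤ 2 ^ (8 * κ + 4) * (y : ℤ) ^ (4 * κ + 1) := by
      have : (2 : ℤ) ^ (8 * κ + 4) * (y : ℤ) ^ (4 * κ + 1) = 2 * (2 ^ (8 * κ + 3) * (y : ℤ) ^ (4 * κ + 1)) := by ring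
      linarith
    exact_mod_cast h5
  have hX1 : 1 < X := by
    by_contra hcon
    push Not at hcon
    have h1 : X ^ 2 ≤ 1 := by
      calc X ^ 2 ≤ 1 ^ 2 := Nat.pow_le_pow_left hcon 2
        _ = 1 := by norm_num
    have h2 : 0 < (2 * (2 * (T * y)) ^ κ) ^ 2 * (T * y * (2 * E)) := by
      have hE0 : 0 < E := by
        have : (0 : ℤ) < E := by rw [hEz]; exact hRQ
        exact_mod_cast this
      have hy0 : 0 < y := by omega
      have hT0 : 0 < T := by omega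
      positivity
    omega
  obtain ⟨d, h1, h2, h3, h5⟩ := build (κ := κ) (P := n) (X := X) (a := 2 * (2 * (T * y)) ^ κ) (E := 2 * E) hm
    (by omega) hmodd ((pow_dvd_pow_of_dvd (dvd_mul_left _ _) κ).mul_left 2) hX1 hcE hX2 hPm (by
      have h7 : X ^ 2 ≤ (2 ^ (8 * κ + 4) * y ^ (4 * κ + 1)) ^ 2 := Nat.pow_le_pow_left hXb 2
      have h8 : 2 ^ (12 * κ + 7) * 2 ^ (12 * κ + 7) ≤ y * y := Nat.mul_le_mul (by omega) (by omega)
      calc 4 * X ^ 2 * 4 ^ (n + 1) ≤ 4 * (2 ^ (8 * κ + 4) * y ^ (4 * κ + 1)) ^ 2 * 4 ^ (n + 1) :=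
            Nat.mul_le_mul_right _ (Nat.mul_le_mul_left _ h7)
        _ = (2 ^ (12 * κ + 7) * 2 ^ (12 * κ + 7)) * (y * y) ^ (4 * κ + 1) := by
            have e1 : 4 ^ (n + 1) = 2 ^ (8 * κ + 4) := by
              rw [hn, show (4 : ℕ) ^ (4 * κ + 1 + 1) = (2 ^ 2) ^ (4 * κ + 1 + 1) by norm_num, ← pow_mul]
              congr 1
              ring
            rw [e1]
            ring
        _ ≤ (y * y) * (y * y) ^ (4 * κ + 1) := Nat.mul_le_mul_right _ h8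
        _ = (y * y) ^ (n + 1) := by rw [hn]; ring
        _ ≤ (T * y) ^ (n + 1) := Nat.pow_le_pow_left hTy1 _)
  refine ⟨T * y, d, ?_, h1, h2, hmodd, h3.trans ?_, h5⟩
  · omega
  · -- size of the cofactor
    have h6 : (E : ℤ) ≤ 4 ^ (4 * κ + 1) * (4 * (y * y)) ^ (2 * κ) := by
      rw [hEz]
      calc R * Q ≤ |R * Q| := le_abs_self _
        _ = |R| * |Q| := abs_mul _ _
        _ ≤ (2 ^ (4 * κ + 1) * (2 * (y : ℤ)) ^ (2 * κ)) * (2 ^ (4 * κ + 1) * (2 * (y : ℤ)) ^ (2 * κ)) :=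
            mul_le_mul hRb hQb (abs_nonneg _) (by positivity)
        _ = ((2 * 2) ^ (4 * κ + 1)) * ((2 * (y : ℤ)) * (2 * (y : ℤ))) ^ (2 * κ) := by
            rw [mul_mul_mul_comm, ← mul_pow, ← mul_pow]
        _ = 4 ^ (4 * κ + 1) * (4 * (y * y)) ^ (2 * κ) := by
            rw [show (2 * (y : ℤ)) * (2 * (y : ℤ)) = 4 * (y * y) by ring]; norm_num
    have h7 : E ≤ 4 ^ (4 * κ + 1) * (4 * (y * y)) ^ (2 * κ) := by exact_mod_cast h6
    have h8 : E ≤ 4 ^ (4 * κ + 1) * (4 * (T * y)) ^ (2 * κ) :=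
      h7.trans (Nat.mul_le_mul_left _ (Nat.pow_le_pow_left (Nat.mul_le_mul_left 4 hTy1) _))
    calc T * y * (2 * E) ≤ T * y * (2 * (4 ^ (4 * κ + 1) * (4 * (T * y)) ^ (2 * κ))) :=
          Nat.mul_le_mul_left _ (Nat.mul_le_mul_left _ h8)
      _ = 2 * 4 ^ (6 * κ + 1) * (T * y) ^ (2 * κ + 1) := by
          rw [mul_pow 4 (T * y) (2 * κ), show 6 * κ + 1 = (4 * κ + 1) + 2 * κ by ring, pow_add, pow_succ (T * y)]
          generalize (T * y) = z
          ring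
      _ ≤ 64 ^ (2 * κ + 1) * (T * y) ^ (2 * κ + 1) := by
          apply Nat.mul_le_mul_right
          calc 2 * 4 ^ (6 * κ + 1) ≤ 4 ^ 2 * 4 ^ (6 * κ + 1) := Nat.mul_le_mul_right _ (by norm_num)
            _ = 4 ^ (3 * (2 * κ + 1)) := by rw [← pow_add]; congr 1; ring
            _ = 64 ^ (2 * κ + 1) := by rw [pow_mul]; norm_num
      _ = (64 * (T * y)) ^ (2 * κ + 1) := (mul_pow 64 (T * y) (2 * κ + 1)).symm

end Pool.Agent.Helper29.LDV
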