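import Pool.Agent.Helper29.LDV.Small
import Pool.Agent.Helper29.LDV.Main
import Pool.Agent.Helper51.Pell.Main

/-!
# LDV/All: all squarefree moduli
-/

set_option autoImplicit false

namespace Pool.Agent.Helper29.LDV

open Pool.Agent.Helper51.Pell

theorem odd_prime_dvd {m : ℕ} (hm : Squarefree m) (h : 2 < m) : ∃ p : ℕ, p.Prime ∧ p % 2 = 1 ∧ p ∣ m := by
  by_contra hcon
  push Not at hcon
  have h1 : m.primeFactors ⊆ {2} := by
    intro p hp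
    rw [Nat.mem_primeFactors] at hp
    rw [Finset.mem_singleton]
    by_contra h2
    rcases hp.1.eq_two_or_odd with h3 | h3
    · exact h2 h3
    · exact hcon p hp.1 h3 hp.2.1
  have h2 := Nat.prod_primeFactors_of_squarefree hm
  have h3 : ∏ p ∈ m.primeFactors, p ≤ ∏ p ∈ ({2} : Finset ℕ), p := by
    apply Finset.prod_le_prod_of_subset_of_one_le' h1
    intro i hi _
    rw [Finset.mem_singleton] at hi
    omega
  rw [h2, Finset.prod_singleton] at h3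
  omega

theorem large_m (κ m : ℕ) (hm : Squarefree m) (hb1 : 4 ^ (4 * κ + 7) ≤ m)
    (hb2 : 2 ^ 14 * (2 * (4 * κ + 2)) ^ (6 * κ) ≤ m) :
    ∃ d : ℕ, Squarefree d ∧ (∃ p : ℕ, p.Prime ∧ p % 2 = 1 ∧ p ∣ d) ∧ m ∣ d ∧ d ≤ 4 * m ^ (2 * κ + 2) ∧
      ∃ t u : ℤ, IsFundamental d t u ∧ ((m : ℤ) ^ κ) ∣ u := by
  have h4 : 4 ^ 7 ≤ 4 ^ (4 * κ + 7) := Nat.pow_le_pow_right (by norm_num) (by omega)
  have hm1 : 4 ^ 7 ≤ m := h4.trans hb1
  norm_num at hm1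
  have hN : 1 ≤ m ^ (2 * κ + 1) := Nat.one_le_pow _ _ (by omega)
  obtain ⟨E, hE⟩ := Nat.exists_eq_add_of_le' (by omega : 1 ≤ 4 * m ^ (2 * κ + 1))
  have hmN : m ≤ m ^ (2 * κ + 1) := Nat.le_self_pow (by omega) m
  have hE0 : 0 < E := by omega
  have hcop : Nat.Coprime m E := by
    rw [Nat.coprime_iff_gcd_eq_one]
    have h1 : Nat.gcd m E ∣ 4 * m ^ (2 * κ + 1) :=
      ((Nat.gcd_dvd_left _ _).trans (dvd_pow_self m (by omega))).mul_left 4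
    rw [hE] at h1
    exact Nat.dvd_one.1 ((Nat.dvd_add_right (Nat.gcd_dvd_right m E)).1 h1)
  obtain ⟨d, w, hw, hd⟩ := Nat.sq_mul_squarefree (m * E)
  have hmd := dvd_sf hm hcop hw
  have hw0 : 0 < w := by
    rcases Nat.eq_zero_or_pos w with h1 | h1
    · exfalso
      rw [h1] at hw
      have : 0 < m * E := Nat.mul_pos (by omega) hE0
      omega
    · exact h1
  have hd0 : 0 < d := Nat.pos_of_ne_zero hd.ne_zero
  have hdm : m ≤ d := Nat.le_of_dvd hd0 hmd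
  obtain ⟨t, u, hf⟩ := Pool.Agent.DUC.exists_fundamental d hd (by omega)
  obtain ⟨p, hp, hp2, hpm⟩ := odd_prime_dvd hm (by omega)
  have hXb : (2 * E + 1) ^ 2 ≤ 64 * m ^ (4 * κ + 2) := by
    have h6 : 2 * E + 1 ≤ 8 * m ^ (2 * κ + 1) := by omega
    calc (2 * E + 1) ^ 2 ≤ (8 * m ^ (2 * κ + 1)) ^ 2 := Nat.pow_le_pow_left h6 2
      _ = 64 * m ^ (4 * κ + 2) := by ring
  refine ⟨d, hd, ⟨p, hp, hp2, hpm.trans hmd⟩, hmd, ?_, t, u, hf, ?_⟩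
  · calc d ≤ w ^ 2 * d := Nat.le_mul_of_pos_left d (by positivity)
      _ = m * E := hw
      _ ≤ m * (4 * m ^ (2 * κ + 1)) := Nat.mul_le_mul_left _ (by omega)
      _ = 4 * m ^ (2 * κ + 2) := by ring
  · refine transfer2 hd (by omega) hf m (4 * κ + 2) κ (2 * E + 1) (4 * m ^ κ * w) hm hmd ?_ ?_ ?_ ?_ ?_
    · calc (2 * E + 1) ^ 2 = 4 * (E + 1) * E + 1 := by ring
        _ = 4 * (4 * m ^ (2 * κ + 1)) * E + 1 := by rw [hE]
        _ = 16 * (m ^ κ) ^ 2 * (m * E) + 1 := by ring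
        _ = d * (4 * m ^ κ * w) ^ 2 + 1 := by rw [← hw]; ring
    · have : 0 < m := by omega
      positivity
    · calc 4 * (2 * E + 1) ^ 2 * 4 ^ (4 * κ + 2 + 1) ≤ 4 * (64 * m ^ (4 * κ + 2)) * 4 ^ (4 * κ + 2 + 1) :=
            Nat.mul_le_mul_right _ (Nat.mul_le_mul_left _ hXb)
        _ = 4 ^ (4 * κ + 7) * m ^ (4 * κ + 2) := by
            rw [show 4 * κ + 7 = 4 + (4 * κ + 2 + 1) by ring, pow_add 4 4]
            ring
        _ ≤ m * m ^ (4 * κ + 2) := Nat.mul_le_mul_right _ hb1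
        _ = m ^ (4 * κ + 2 + 1) := by ring
        _ ≤ d ^ (4 * κ + 2 + 1) := Nat.pow_le_pow_left hdm _
    · calc 4 * (2 * E + 1) ^ 2 * (64 * (2 * (4 * κ + 2)) ^ (6 * κ))
            ≤ 4 * (64 * m ^ (4 * κ + 2)) * (64 * (2 * (4 * κ + 2)) ^ (6 * κ)) :=
            Nat.mul_le_mul_right _ (Nat.mul_le_mul_left _ hXb)
        _ = 2 ^ 14 * (2 * (4 * κ + 2)) ^ (6 * κ) * m ^ (4 * κ + 2) := by ring
        _ ≤ m ^ (2 * κ + 1) * m ^ (4 * κ + 2) := Nat.mul_le_mul_right _ (hb2.trans hmN)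
        _ = (m ^ (2 * κ) * m) ^ 3 := by ring
        _ ≤ (m ^ (2 * κ) * d) ^ 3 := Nat.pow_le_pow_left (Nat.mul_le_mul_left _ hdm) 3
    · exact ⟨2 * w, by ring⟩

/-- every squarefree `m` divides a squarefree `d ≤ C m^(2κ+2)` with `m^κ ∣ u(d)` -/
theorem partAll (κ : ℕ) : ∃ C : ℕ, ∀ m : ℕ, Squarefree m →
    ∃ d : ℕ, Squarefree d ∧ (∃ p : ℕ, p.Prime ∧ p % 2 = 1 ∧ p ∣ d) ∧ m ∣ d ∧ d ≤ C * m ^ (2 * κ + 2) ∧
      ∃ t u : ℤ, IsFundamental d t u ∧ ((m : ℤ) ^ κ) ∣ u := by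
  have hsmall : ∀ n : ℕ, ∃ C : ℕ, ∀ m : ℕ, m < n → Squarefree m →
      ∃ d : ℕ, Squarefree d ∧ (∃ p : ℕ, p.Prime ∧ p % 2 = 1 ∧ p ∣ d) ∧ m ∣ d ∧ d ≤ C ∧
        ∃ t u : ℤ, IsFundamental d t u ∧ ((m : ℤ) ^ κ) ∣ u := by
    intro n
    induction n with
    | zero => exact ⟨0, fun m hm => absurd hm (by omega)⟩
    | succ n ih =>
      obtain ⟨C, hC⟩ := ih
      by_cases hs : Squarefree n
      · obtain ⟨d, -, h1, h2, h3, h5⟩ := main n κ 0 hs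
        refine ⟨C + d, fun m hm hsm => ?_⟩
        rcases (by omega : m < n ∨ m = n) with h | h
        · obtain ⟨d', h6, h7, h8, h9, h10⟩ := hC m h hsm
          exact ⟨d', h6, h7, h8, by omega, h10⟩
        · subst h
          exact ⟨d, h1, h2, h3, by omega, h5⟩
      · refine ⟨C, fun m hm hsm => ?_⟩
        rcases (by omega : m < n ∨ m = n) with h | h
        · exact hC m h hsm
        · subst h
          exact absurd hsm hs
  obtain ⟨C, hC⟩ := hsmall (4 ^ (4 * κ + 7) + 2 ^ 14 * (2 * (4 * κ + 2)) ^ (6 * κ))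
  refine ⟨C + 4, fun m hm => ?_⟩
  by_cases h : m < 4 ^ (4 * κ + 7) + 2 ^ 14 * (2 * (4 * κ + 2)) ^ (6 * κ)
  · obtain ⟨d, h1, h2, h3, h5, h6⟩ := hC m h hm
    refine ⟨d, h1, h2, h3, h5.trans ?_, h6⟩
    have hm0 : 0 < m := Nat.pos_of_ne_zero hm.ne_zero
    have : 1 ≤ m ^ (2 * κ + 2) := Nat.one_le_pow _ _ hm0
    calc C ≤ C + 4 := by omega
      _ = (C + 4) * 1 := by ring
      _ ≤ (C + 4) * m ^ (2 * κ + 2) := Nat.mul_le_mul_left _ this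
  · push Not at h
    obtain ⟨d, h1, h2, h3, h5, h6⟩ := large_m κ m hm ((Nat.le_add_right _ _).trans h) ((Nat.le_add_left _ _).trans h)
    exact ⟨d, h1, h2, h3, h5.trans (Nat.mul_le_mul_right _ (by omega)), h6⟩

end Pool.Agent.Helper29.LDV
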