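import Mathlib

/-!
# LDV/Binom: the middle split of `((1+T) - T)^(4κ+1) = 1`

`(1+T)^(2κ+1) R(T) = 1 + T^(2κ+1) Q(T)` with `R, Q` of degree `2κ`, whose values are prime to the large primes
dividing `T (T+1)`.
-/

set_option autoImplicit false

namespace Pool.Agent.Helper29.LDV

open Finset

/-- upper half of the binomial sum -/
def RR (κ : ℕ) (T : ℤ) : ℤ :=
  ∑ j ∈ range (2 * κ + 1), (1 + T) ^ j * (-T) ^ (2 * κ - j) * ((4 * κ + 1).choose (2 * κ + 1 + j) : ℤ)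

/-- lower half of the binomial sum -/
def QQ (κ : ℕ) (T : ℤ) : ℤ :=
  ∑ j ∈ range (2 * κ + 1), (1 + T) ^ j * (-T) ^ (2 * κ - j) * ((4 * κ + 1).choose j : ℤ)

theorem ident (κ : ℕ) (T : ℤ) :
    (1 + T) ^ (2 * κ + 1) * RR κ T = 1 + T ^ (2 * κ + 1) * QQ κ T := by
  have h1 := add_pow (1 + T) (-T) (4 * κ + 1)
  have h2 : (1 + T + -T) ^ (4 * κ + 1) = 1 := by
    rw [show (1 + T + -T) = 1 by ring, one_pow]
  rw [h2, show 4 * κ + 1 + 1 = (2 * κ + 1) + (2 * κ + 1) by ring, sum_range_add] at h1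
  have h3 : ∑ x ∈ range (2 * κ + 1), (1 + T) ^ x * (-T) ^ (4 * κ + 1 - x) * ((4 * κ + 1).choose x : ℤ) =
      (-T) ^ (2 * κ + 1) * QQ κ T := by
    rw [QQ, mul_sum]
    refine sum_congr rfl fun j hj => ?_
    rw [mem_range] at hj
    rw [show 4 * κ + 1 - j = (2 * κ + 1) + (2 * κ - j) by omega, pow_add]
    ring
  have h4 : ∑ x ∈ range (2 * κ + 1), (1 + T) ^ (2 * κ + 1 + x) * (-T) ^ (4 * κ + 1 - (2 * κ + 1 + x)) *
      ((4 * κ + 1).choose (2 * κ + 1 + x) : ℤ) = (1 + T) ^ (2 * κ + 1) * RR κ T := by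
    rw [RR, mul_sum]
    refine sum_congr rfl fun j hj => ?_
    rw [mem_range] at hj
    rw [show 4 * κ + 1 - (2 * κ + 1 + j) = 2 * κ - j by omega, pow_add]
    ring
  rw [h3, h4, Odd.neg_pow ⟨κ, rfl⟩] at h1
  linarith

theorem not_dvd_choose {p κ j : ℕ} (hp : p.Prime) (h : 4 * κ + 1 < p) (hj : j ≤ 4 * κ + 1) :
    ¬ p ∣ (4 * κ + 1).choose j := by
  intro hd
  have h1 : p ∣ (4 * κ + 1).factorial := by
    rw [← Nat.choose_mul_factorial_mul_factorial hj]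
    exact (hd.mul_right _).mul_right _
  rw [hp.dvd_factorial] at h1
  omega

/-- a large prime dividing `T` does not divide `Q(T)` -/
theorem QQ_of_dvd {p κ : ℕ} (hp : p.Prime) (h : 4 * κ + 1 < p) {T : ℤ} (hT : (p : ℤ) ∣ T) :
    ¬ (p : ℤ) ∣ QQ κ T := by
  intro hd
  rw [QQ, sum_range_succ] at hd
  have h1 : (p : ℤ) ∣ ∑ j ∈ range (2 * κ), (1 + T) ^ j * (-T) ^ (2 * κ - j) * ((4 * κ + 1).choose j : ℤ) := by
    refine dvd_sum fun j hj => ?_
    rw [mem_range] at hj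
    refine Dvd.dvd.mul_right (Dvd.dvd.mul_left ?_ _) _
    exact dvd_pow (by rwa [dvd_neg]) (by omega)
  rw [dvd_add_right h1, Nat.sub_self, pow_zero, mul_one] at hd
  have hpZ : Prime (p : ℤ) := Nat.prime_iff_prime_int.1 hp
  rcases hpZ.dvd_or_dvd hd with h2 | h2
  · have h3 := hpZ.dvd_of_dvd_pow h2
    rw [dvd_add_left hT] at h3
    exact hpZ.not_dvd_one h3
  · exact not_dvd_choose (j := 2 * κ) hp h (by omega) (by exact_mod_cast h2)

/-- a large prime dividing `1 + T` does not divide `R(T)` -/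
theorem RR_of_dvd {p κ : ℕ} (hp : p.Prime) (h : 4 * κ + 1 < p) {T : ℤ} (hT : (p : ℤ) ∣ 1 + T) :
    ¬ (p : ℤ) ∣ RR κ T := by
  intro hd
  rw [RR, sum_range_succ'] at hd
  have h1 : (p : ℤ) ∣ ∑ j ∈ range (2 * κ), (1 + T) ^ (j + 1) * (-T) ^ (2 * κ - (j + 1)) *
      ((4 * κ + 1).choose (2 * κ + 1 + (j + 1)) : ℤ) := by
    refine dvd_sum fun j hj => ?_
    refine Dvd.dvd.mul_right (Dvd.dvd.mul_right ?_ _) _
    exact dvd_pow hT (by omega)
  rw [dvd_add_right h1, pow_zero, one_mul] at hd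
  have hpZ : Prime (p : ℤ) := Nat.prime_iff_prime_int.1 hp
  rcases hpZ.dvd_or_dvd hd with h2 | h2
  · have h3 := hpZ.dvd_of_dvd_pow h2
    rw [dvd_neg] at h3
    rw [dvd_add_left h3] at hT
    exact hpZ.not_dvd_one hT
  · exact not_dvd_choose (j := 2 * κ + 1 + 0) hp h (by omega) (by exact_mod_cast h2)

theorem RR_of_dvd' {p κ : ℕ} (hp : p.Prime) {T : ℤ} (hT : (p : ℤ) ∣ T) :
    ¬ (p : ℤ) ∣ RR κ T := by
  intro hd
  have hpZ : Prime (p : ℤ) := Nat.prime_iff_prime_int.1 hp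
  have h1 : (p : ℤ) ∣ 1 + T ^ (2 * κ + 1) * QQ κ T := by
    rw [← ident]
    exact hd.mul_left _
  have h2 : (p : ℤ) ∣ T ^ (2 * κ + 1) * QQ κ T := (dvd_pow hT (by omega)).mul_right _
  rw [dvd_add_left h2] at h1
  exact hpZ.not_dvd_one h1

theorem QQ_of_dvd' {p κ : ℕ} (hp : p.Prime) {T : ℤ} (hT : (p : ℤ) ∣ 1 + T) :
    ¬ (p : ℤ) ∣ QQ κ T := by
  intro hd
  have hpZ : Prime (p : ℤ) := Nat.prime_iff_prime_int.1 hp
  have h1 : (p : ℤ) ∣ 1 + T ^ (2 * κ + 1) * QQ κ T := by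
    rw [← ident]
    exact (dvd_pow hT (by omega)).mul_right _
  have h2 : (p : ℤ) ∣ T ^ (2 * κ + 1) * QQ κ T := hd.mul_left _
  rw [dvd_add_left h2] at h1
  exact hpZ.not_dvd_one h1

/-- the product `R(T) Q(T)` is positive -/
theorem RQ_pos (κ : ℕ) {T : ℤ} (hT : 2 ≤ T) : 0 < RR κ T * QQ κ T := by
  have h := ident κ T
  have h1 : 2 ≤ T ^ (2 * κ + 1) := by
    calc (2 : ℤ) ≤ T := hT
      _ = T ^ 1 := (pow_one T).symm
      _ ≤ T ^ (2 * κ + 1) := pow_le_pow_right₀ (by linarith) (by omega)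
  have h2 : 2 ≤ (1 + T) ^ (2 * κ + 1) := by
    calc (2 : ℤ) ≤ 1 + T := by linarith
      _ = (1 + T) ^ 1 := (pow_one _).symm
      _ ≤ (1 + T) ^ (2 * κ + 1) := pow_le_pow_right₀ (by linarith) (by omega)
  rcases lt_trichotomy (QQ κ T) 0 with h3 | h3 | h3
  · have h4 : (1 + T) ^ (2 * κ + 1) * RR κ T < 0 := by rw [h]; nlinarith
    have h5 : RR κ T < 0 := by
      by_contra h6
      push Not at h6
      have := mul_nonneg (by linarith : (0 : ℤ) ≤ (1 + T) ^ (2 * κ + 1)) h6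
      linarith
    exact mul_pos_of_neg_of_neg h5 h3
  · exfalso
    rw [h3, mul_zero, add_zero] at h
    have h6 : RR κ T = 0 ∨ RR κ T ≤ -1 ∨ 1 ≤ RR κ T := by omega
    rcases h6 with h6 | h6 | h6
    · rw [h6, mul_zero] at h; omega
    · nlinarith
    · nlinarith
  · have h4 : 0 < (1 + T) ^ (2 * κ + 1) * RR κ T := by rw [h]; nlinarith
    have h5 : 0 < RR κ T := by
      by_contra h6
      push Not at h6
      have := mul_nonpos_of_nonneg_of_nonpos (by linarith : (0 : ℤ) ≤ (1 + T) ^ (2 * κ + 1)) h6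
      linarith
    exact mul_pos h5 h3

private theorem bound_aux (κ : ℕ) {T : ℤ} (hT : 0 ≤ T) (f : ℕ → ℕ)
    (hf : ∑ j ∈ range (2 * κ + 1), f j ≤ 2 ^ (4 * κ + 1)) :
    |∑ j ∈ range (2 * κ + 1), (1 + T) ^ j * (-T) ^ (2 * κ - j) * (f j : ℤ)| ≤
      2 ^ (4 * κ + 1) * (1 + T) ^ (2 * κ) := by
  calc |∑ j ∈ range (2 * κ + 1), (1 + T) ^ j * (-T) ^ (2 * κ - j) * (f j : ℤ)|
      ≤ ∑ j ∈ range (2 * κ + 1), |(1 + T) ^ j * (-T) ^ (2 * κ - j) * (f j : ℤ)| := abs_sum_le_sum_abs _ _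
    _ ≤ ∑ j ∈ range (2 * κ + 1), (f j : ℤ) * (1 + T) ^ (2 * κ) := by
        refine sum_le_sum fun j hj => ?_
        rw [mem_range] at hj
        rw [abs_mul, abs_mul, abs_pow, abs_pow, abs_neg, abs_of_nonneg hT, abs_of_nonneg (by linarith : 0 ≤ 1 + T),
          Nat.abs_cast]
        have h1 : T ^ (2 * κ - j) ≤ (1 + T) ^ (2 * κ - j) := pow_le_pow_left₀ hT (by linarith) _
        have h2 : (1 + T) ^ j * T ^ (2 * κ - j) ≤ (1 + T) ^ (2 * κ) := by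
          calc (1 + T) ^ j * T ^ (2 * κ - j) ≤ (1 + T) ^ j * (1 + T) ^ (2 * κ - j) :=
                mul_le_mul_of_nonneg_left h1 (by positivity)
            _ = (1 + T) ^ (2 * κ) := by rw [← pow_add]; congr 1; omega
        calc (1 + T) ^ j * T ^ (2 * κ - j) * (f j : ℤ) ≤ (1 + T) ^ (2 * κ) * (f j : ℤ) :=
              mul_le_mul_of_nonneg_right h2 (by positivity)
          _ = _ := mul_comm _ _
    _ = ((∑ j ∈ range (2 * κ + 1), f j : ℕ) : ℤ) * (1 + T) ^ (2 * κ) := by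
        rw [← sum_mul]; push_cast; rfl
    _ ≤ 2 ^ (4 * κ + 1) * (1 + T) ^ (2 * κ) := by
        apply mul_le_mul_of_nonneg_right
        · exact_mod_cast hf
        · positivity

theorem QQ_bound (κ : ℕ) {T : ℤ} (hT : 0 ≤ T) : |QQ κ T| ≤ 2 ^ (4 * κ + 1) * (1 + T) ^ (2 * κ) := by
  apply bound_aux κ hT (fun j => (4 * κ + 1).choose j)
  rw [← Nat.sum_range_choose (4 * κ + 1)]
  exact sum_le_sum_of_subset (range_mono (by omega))

theorem RR_bound (κ : ℕ) {T : ℤ} (hT : 0 ≤ T) : |RR κ T| ≤ 2 ^ (4 * κ + 1) * (1 + T) ^ (2 * κ) := by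
  apply bound_aux κ hT (fun j => (4 * κ + 1).choose (2 * κ + 1 + j))
  have h1 := Nat.sum_range_choose (4 * κ + 1)
  rw [show 4 * κ + 1 + 1 = (2 * κ + 1) + (2 * κ + 1) by ring,
    sum_range_add (fun m => (4 * κ + 1).choose m) (2 * κ + 1) (2 * κ + 1)] at h1
  rw [← h1]
  exact Nat.le_add_left _ _

end Pool.Agent.Helper29.LDV
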