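import Pool.Agent.Helper29.LDV.Binom

/-!
# LDV/Binom3: the unequal split of `((1+Z) - Z)^(2κ+2μ+1) = 1`
-/

set_option autoImplicit false

namespace Pool.Agent.Helper29.LDV

open Finset

/-- upper part of the binomial sum -/
def R3 (κ μ : ℕ) (Z : ℤ) : ℤ :=
  ∑ j ∈ range (2 * μ + 1), (1 + Z) ^ j * (-Z) ^ (2 * μ - j) * ((2 * κ + 2 * μ + 1).choose (2 * κ + 1 + j) : ℤ)

/-- lower part of the binomial sum -/
def Q3 (κ μ : ℕ) (Z : ℤ) : ℤ :=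
  ∑ j ∈ range (2 * κ + 1), (1 + Z) ^ j * (-Z) ^ (2 * κ - j) * ((2 * κ + 2 * μ + 1).choose j : ℤ)

theorem ident3 (κ μ : ℕ) (Z : ℤ) :
    (1 + Z) ^ (2 * κ + 1) * R3 κ μ Z = 1 + Z ^ (2 * μ + 1) * Q3 κ μ Z := by
  have h1 := add_pow (1 + Z) (-Z) (2 * κ + 2 * μ + 1)
  have h2 : (1 + Z + -Z) ^ (2 * κ + 2 * μ + 1) = 1 := by
    rw [show (1 + Z + -Z) = 1 by ring, one_pow]
  rw [h2, show 2 * κ + 2 * μ + 1 + 1 = (2 * κ + 1) + (2 * μ + 1) by ring, sum_range_add] at h1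
  have h3 : ∑ x ∈ range (2 * κ + 1), (1 + Z) ^ x * (-Z) ^ (2 * κ + 2 * μ + 1 - x) *
      ((2 * κ + 2 * μ + 1).choose x : ℤ) = (-Z) ^ (2 * μ + 1) * Q3 κ μ Z := by
    rw [Q3, mul_sum]
    refine sum_congr rfl fun j hj => ?_
    rw [mem_range] at hj
    rw [show 2 * κ + 2 * μ + 1 - j = (2 * μ + 1) + (2 * κ - j) by omega, pow_add]
    ring
  have h4 : ∑ x ∈ range (2 * μ + 1), (1 + Z) ^ (2 * κ + 1 + x) *
      (-Z) ^ (2 * κ + 2 * μ + 1 - (2 * κ + 1 + x)) *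
      ((2 * κ + 2 * μ + 1).choose (2 * κ + 1 + x) : ℤ) = (1 + Z) ^ (2 * κ + 1) * R3 κ μ Z := by
    rw [R3, mul_sum]
    refine sum_congr rfl fun j hj => ?_
    rw [mem_range] at hj
    rw [show 2 * κ + 2 * μ + 1 - (2 * κ + 1 + j) = 2 * μ - j by omega, pow_add]
    ring
  rw [h3, h4, Odd.neg_pow ⟨μ, rfl⟩] at h1
  linarith

theorem not_dvd_choose3 {p n j : ℕ} (hp : p.Prime) (h : n < p) (hj : j ≤ n) : ¬ p ∣ n.choose j := by
  intro hd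
  have h1 : p ∣ n.factorial := by
    rw [← Nat.choose_mul_factorial_mul_factorial hj]
    exact (hd.mul_right _).mul_right _
  rw [hp.dvd_factorial] at h1
  omega

theorem Q3_of_dvd {p κ μ : ℕ} (hp : p.Prime) (h : 2 * κ + 2 * μ + 1 < p) {Z : ℤ} (hT : (p : ℤ) ∣ Z) :
    ¬ (p : ℤ) ∣ Q3 κ μ Z := by
  intro hd
  rw [Q3, sum_range_succ] at hd
  have h1 : (p : ℤ) ∣ ∑ j ∈ range (2 * κ), (1 + Z) ^ j * (-Z) ^ (2 * κ - j) *
      ((2 * κ + 2 * μ + 1).choose j : ℤ) := by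
    refine dvd_sum fun j hj => ?_
    rw [mem_range] at hj
    refine Dvd.dvd.mul_right (Dvd.dvd.mul_left ?_ _) _
    exact dvd_pow (by rwa [dvd_neg]) (by omega)
  rw [dvd_add_right h1, Nat.sub_self, pow_zero, mul_one] at hd
  have hpZ : Prime (p : ℤ) := Nat.prime_iff_prime_int.1 hp
  rcases hpZ.dvd_or_dvd hd with h2 | h2
  · have h3 := hpZ.dvd_of_dvd_pow h2
    rw [dvd_add_left hT] at h3
    exact hpZ.not_dvd_one h3
  · exact not_dvd_choose3 (j := 2 * κ) hp h (by omega) (by exact_mod_cast h2)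

theorem R3_of_dvd {p κ μ : ℕ} (hp : p.Prime) (h : 2 * κ + 2 * μ + 1 < p) {Z : ℤ} (hT : (p : ℤ) ∣ 1 + Z) :
    ¬ (p : ℤ) ∣ R3 κ μ Z := by
  intro hd
  rw [R3, sum_range_succ'] at hd
  have h1 : (p : ℤ) ∣ ∑ j ∈ range (2 * μ), (1 + Z) ^ (j + 1) * (-Z) ^ (2 * μ - (j + 1)) *
      ((2 * κ + 2 * μ + 1).choose (2 * κ + 1 + (j + 1)) : ℤ) := by
    refine dvd_sum fun j hj => ?_
    refine Dvd.dvd.mul_right (Dvd.dvd.mul_right ?_ _) _
    exact dvd_pow hT (by omega)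
  rw [dvd_add_right h1, pow_zero, one_mul] at hd
  have hpZ : Prime (p : ℤ) := Nat.prime_iff_prime_int.1 hp
  rcases hpZ.dvd_or_dvd hd with h2 | h2
  · have h3 := hpZ.dvd_of_dvd_pow h2
    rw [dvd_neg] at h3
    rw [dvd_add_left h3] at hT
    exact hpZ.not_dvd_one hT
  · exact not_dvd_choose3 (j := 2 * κ + 1 + 0) hp h (by omega) (by exact_mod_cast h2)

theorem R3_of_dvd' {p κ μ : ℕ} (hp : p.Prime) {Z : ℤ} (hT : (p : ℤ) ∣ Z) :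
    ¬ (p : ℤ) ∣ R3 κ μ Z := by
  intro hd
  have hpZ : Prime (p : ℤ) := Nat.prime_iff_prime_int.1 hp
  have h1 : (p : ℤ) ∣ 1 + Z ^ (2 * μ + 1) * Q3 κ μ Z := by
    rw [← ident3]
    exact hd.mul_left _
  have h2 : (p : ℤ) ∣ Z ^ (2 * μ + 1) * Q3 κ μ Z := (dvd_pow hT (by omega)).mul_right _
  rw [dvd_add_left h2] at h1
  exact hpZ.not_dvd_one h1

theorem Q3_of_dvd' {p κ μ : ℕ} (hp : p.Prime) {Z : ℤ} (hT : (p : ℤ) ∣ 1 + Z) :
    ¬ (p : ℤ) ∣ Q3 κ μ Z := by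
  intro hd
  have hpZ : Prime (p : ℤ) := Nat.prime_iff_prime_int.1 hp
  have h1 : (p : ℤ) ∣ 1 + Z ^ (2 * μ + 1) * Q3 κ μ Z := by
    rw [← ident3]
    exact (dvd_pow hT (by omega)).mul_right _
  have h2 : (p : ℤ) ∣ Z ^ (2 * μ + 1) * Q3 κ μ Z := hd.mul_left _
  rw [dvd_add_left h2] at h1
  exact hpZ.not_dvd_one h1

theorem RQ3_pos (κ μ : ℕ) {Z : ℤ} (hT : 2 ≤ Z) : 0 < R3 κ μ Z * Q3 κ μ Z := by
  have h := ident3 κ μ Z
  have h1 : 2 ≤ Z ^ (2 * μ + 1) := by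
    calc (2 : ℤ) ≤ Z := hT
      _ = Z ^ 1 := (pow_one Z).symm
      _ ≤ Z ^ (2 * μ + 1) := pow_le_pow_right₀ (by linarith) (by omega)
  have h2 : 2 ≤ (1 + Z) ^ (2 * κ + 1) := by
    calc (2 : ℤ) ≤ 1 + Z := by linarith
      _ = (1 + Z) ^ 1 := (pow_one _).symm
      _ ≤ (1 + Z) ^ (2 * κ + 1) := pow_le_pow_right₀ (by linarith) (by omega)
  rcases lt_trichotomy (Q3 κ μ Z) 0 with h3 | h3 | h3
  · have h4 : (1 + Z) ^ (2 * κ + 1) * R3 κ μ Z < 0 := by rw [h]; nlinarith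
    have h5 : R3 κ μ Z < 0 := by
      by_contra h6
      push Not at h6
      have := mul_nonneg (by linarith : (0 : ℤ) ≤ (1 + Z) ^ (2 * κ + 1)) h6
      linarith
    exact mul_pos_of_neg_of_neg h5 h3
  · exfalso
    rw [h3, mul_zero, add_zero] at h
    have h6 : R3 κ μ Z = 0 ∨ R3 κ μ Z ≤ -1 ∨ 1 ≤ R3 κ μ Z := by omega
    rcases h6 with h6 | h6 | h6
    · rw [h6, mul_zero] at h; omega
    · nlinarith
    · nlinarith
  · have h4 : 0 < (1 + Z) ^ (2 * κ + 1) * R3 κ μ Z := by rw [h]; nlinarith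
    have h5 : 0 < R3 κ μ Z := by
      by_contra h6
      push Not at h6
      have := mul_nonpos_of_nonneg_of_nonpos (by linarith : (0 : ℤ) ≤ (1 + Z) ^ (2 * κ + 1)) h6
      linarith
    exact mul_pos h5 h3

private theorem bound_aux3 (a n : ℕ) {Z : ℤ} (hT : 0 ≤ Z) (f : ℕ → ℕ)
    (hf : ∑ j ∈ range (2 * a + 1), f j ≤ 2 ^ n) :
    |∑ j ∈ range (2 * a + 1), (1 + Z) ^ j * (-Z) ^ (2 * a - j) * (f j : ℤ)| ≤
      2 ^ n * (1 + Z) ^ (2 * a) := by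
  calc |∑ j ∈ range (2 * a + 1), (1 + Z) ^ j * (-Z) ^ (2 * a - j) * (f j : ℤ)|
      ≤ ∑ j ∈ range (2 * a + 1), |(1 + Z) ^ j * (-Z) ^ (2 * a - j) * (f j : ℤ)| := abs_sum_le_sum_abs _ _
    _ ≤ ∑ j ∈ range (2 * a + 1), (f j : ℤ) * (1 + Z) ^ (2 * a) := by
        refine sum_le_sum fun j hj => ?_
        rw [mem_range] at hj
        rw [abs_mul, abs_mul, abs_pow, abs_pow, abs_neg, abs_of_nonneg hT, abs_of_nonneg (by linarith : 0 ≤ 1 + Z),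
          Nat.abs_cast]
        have h1 : Z ^ (2 * a - j) ≤ (1 + Z) ^ (2 * a - j) := pow_le_pow_left₀ hT (by linarith) _
        have h2 : (1 + Z) ^ j * Z ^ (2 * a - j) ≤ (1 + Z) ^ (2 * a) := by
          calc (1 + Z) ^ j * Z ^ (2 * a - j) ≤ (1 + Z) ^ j * (1 + Z) ^ (2 * a - j) :=
                mul_le_mul_of_nonneg_left h1 (by positivity)
            _ = (1 + Z) ^ (2 * a) := by rw [← pow_add]; congr 1; omega
        calc (1 + Z) ^ j * Z ^ (2 * a - j) * (f j : ℤ) ≤ (1 + Z) ^ (2 * a) * (f j : ℤ) :=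
              mul_le_mul_of_nonneg_right h2 (by positivity)
          _ = _ := mul_comm _ _
    _ = ((∑ j ∈ range (2 * a + 1), f j : ℕ) : ℤ) * (1 + Z) ^ (2 * a) := by
        rw [← sum_mul]; push_cast; rfl
    _ ≤ 2 ^ n * (1 + Z) ^ (2 * a) := by
        apply mul_le_mul_of_nonneg_right
        · exact_mod_cast hf
        · positivity

theorem Q3_bound (κ μ : ℕ) {Z : ℤ} (hT : 0 ≤ Z) : |Q3 κ μ Z| ≤ 2 ^ (2 * κ + 2 * μ + 1) * (1 + Z) ^ (2 * κ) := by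
  apply bound_aux3 κ _ hT (fun j => (2 * κ + 2 * μ + 1).choose j)
  rw [← Nat.sum_range_choose (2 * κ + 2 * μ + 1)]
  exact sum_le_sum_of_subset (range_mono (by omega))

theorem R3_bound (κ μ : ℕ) {Z : ℤ} (hT : 0 ≤ Z) : |R3 κ μ Z| ≤ 2 ^ (2 * κ + 2 * μ + 1) * (1 + Z) ^ (2 * μ) := by
  apply bound_aux3 μ _ hT (fun j => (2 * κ + 2 * μ + 1).choose (2 * κ + 1 + j))
  have h1 := Nat.sum_range_choose (2 * κ + 2 * μ + 1)
  rw [show 2 * κ + 2 * μ + 1 + 1 = (2 * κ + 1) + (2 * μ + 1) by ring,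
    sum_range_add (fun m => (2 * κ + 2 * μ + 1).choose m) (2 * κ + 1) (2 * μ + 1)] at h1
  rw [← h1]
  exact Nat.le_add_left _ _

end Pool.Agent.Helper29.LDV
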