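import Pool.Agent.Helper29.LDV.Transfer
import Pool.Agent.Helper29.LDV.Binom
import Pool.Agent.DUC.Unit

/-!
# LDV/Build: from an identity `X² - 1 = a² m E` to a field
-/

set_option autoImplicit false

namespace Pool.Agent.Helper29.LDV

open Pool.Agent.Helper51.Pell

/-- a divisor prime to the cofactor divides the squarefree part -/
theorem dvd_sf {m E d w : ℕ} (hm : Squarefree m) (hE : Nat.Coprime m E) (h : w ^ 2 * d = m * E) : m ∣ d := by
  have hc : Nat.Coprime m w := by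
    rw [Nat.coprime_iff_gcd_eq_one]
    by_contra hg
    obtain ⟨p, hp, hpg⟩ := Nat.exists_prime_and_dvd hg
    have h1 : p ∣ m := hpg.trans (Nat.gcd_dvd_left _ _)
    have h2 : p ∣ w := hpg.trans (Nat.gcd_dvd_right _ _)
    have h3 : p ^ 2 ∣ m * E := by
      rw [← h]
      exact (pow_dvd_pow_of_dvd h2 2).mul_right d
    have h4 : Nat.Coprime (p ^ 2) E := (Nat.Coprime.coprime_dvd_left h1 hE).pow_left 2
    have h5 : p ^ 2 ∣ m := h4.dvd_of_dvd_mul_right h3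
    have h6 : IsUnit p := hm p (by rwa [← pow_two])
    rw [Nat.isUnit_iff] at h6
    exact hp.one_lt.ne' h6
  have h7 : m ∣ w ^ 2 * d := by rw [h]; exact dvd_mul_right _ _
  exact (hc.pow_right 2).dvd_of_dvd_mul_left h7

theorem build {m κ P X a E : ℕ} (hm : Squarefree m) (hm1 : 1 < m) (hodd : m % 2 = 1) (ha : m ^ κ ∣ a)
    (hX : 1 < X) (hE : Nat.Coprime m E) (h : X ^ 2 = a ^ 2 * (m * E) + 1)
    (hP : ∀ p : ℕ, p.Prime → p ∣ m → P < p) (hbig : 4 * X ^ 2 * 4 ^ (P + 1) ≤ m ^ (P + 1)) :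
    ∃ d : ℕ, Squarefree d ∧ m ∣ d ∧ d ≤ m * E ∧ ∃ t u : ℤ, IsFundamental d t u ∧ ((m : ℤ) ^ κ) ∣ u := by
  obtain ⟨d, w, hw, hd⟩ := Nat.sq_mul_squarefree (m * E)
  have hmd := dvd_sf hm hE hw
  have hne : a ^ 2 * (m * E) ≠ 0 := by
    intro h0
    rw [h0, zero_add] at h
    nlinarith
  have ha0 : 0 < a := by
    rcases Nat.eq_zero_or_pos a with h1 | h1
    · exfalso; apply hne; rw [h1]; ring
    · exact h1
  have hw0 : 0 < w := by
    rcases Nat.eq_zero_or_pos w with h1 | h1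
    · exfalso; apply hne; rw [← hw, h1]; ring
    · exact h1
  have hd0 : 0 < d := Nat.pos_of_ne_zero hd.ne_zero
  have hdm : m ≤ d := Nat.le_of_dvd hd0 hmd
  obtain ⟨t, u, hf⟩ := Pool.Agent.DUC.exists_fundamental d hd (by omega)
  refine ⟨d, hd, hmd, ?_, t, u, hf, ?_⟩
  · rw [← hw]
    exact Nat.le_mul_of_pos_left d (by positivity)
  · refine transfer hd (by omega) hf m P κ X (a * w) hodd hmd hP ?_ (by positivity) ?_ (ha.mul_right _)
    · rw [h, ← hw]; ring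
    · exact hbig.trans (Nat.pow_le_pow_left hdm _)

/-- all moduli with large prime factors -/
theorem partA (κ m : ℕ) (hm : Squarefree m) (hP : ∀ p : ℕ, p.Prime → p ∣ m → 4 * κ + 2 < p)
    (hbig : 4 ^ (4 * κ + 5) ≤ m) :
    ∃ d : ℕ, Squarefree d ∧ m ∣ d ∧ d < m ^ (2 * κ + 2) ∧
      ∃ t u : ℤ, IsFundamental d t u ∧ ((m : ℤ) ^ κ) ∣ u := by
  have h4 : 4 ^ 5 ≤ 4 ^ (4 * κ + 5) := Nat.pow_le_pow_right (by norm_num) (by omega)
  have hm1 : 4 ^ 5 ≤ m := h4.trans hbig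
  norm_num at hm1
  have hodd : m % 2 = 1 := by
    rcases Nat.mod_two_eq_zero_or_one m with h | h
    · exfalso
      have := hP 2 Nat.prime_two (Nat.dvd_of_mod_eq_zero h)
      omega
    · exact h
  have hN : 1 ≤ m ^ (2 * κ + 1) := Nat.one_le_pow _ _ (by omega)
  obtain ⟨M, hM⟩ := Nat.exists_eq_add_of_le' hN
  have hmM : m ≤ m ^ (2 * κ + 1) := Nat.le_self_pow (by omega) m
  have hMpos : 0 < M := by omega
  have hcop : Nat.Coprime m M := by
    rw [Nat.coprime_iff_gcd_eq_one]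
    have h1 : Nat.gcd m M ∣ m ^ (2 * κ + 1) := (Nat.gcd_dvd_left _ _).trans (dvd_pow_self m (by omega))
    rw [hM] at h1
    exact Nat.dvd_one.1 ((Nat.dvd_add_right (Nat.gcd_dvd_right m M)).1 h1)
  have hX2 : (2 * M + 1) ^ 2 = (2 * m ^ κ) ^ 2 * (m * M) + 1 := by
    have h1 : m ^ κ * m ^ κ * m = m ^ (2 * κ + 1) := by ring
    calc (2 * M + 1) ^ 2 = 4 * (M + 1) * M + 1 := by ring
      _ = 4 * (m ^ κ * m ^ κ * m) * M + 1 := by rw [h1, hM]
      _ = (2 * m ^ κ) ^ 2 * (m * M) + 1 := by ring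
  obtain ⟨d, h1, h2, h3, h5⟩ := build (κ := κ) (P := 4 * κ + 2) (X := 2 * M + 1) (a := 2 * m ^ κ) (E := M) hm
    (by omega) hodd (dvd_mul_left _ _) (by omega) hcop hX2 hP (by
      have h6 : 2 * M + 1 ≤ 2 * m ^ (2 * κ + 1) := by omega
      have h7 : (2 * M + 1) ^ 2 ≤ (2 * m ^ (2 * κ + 1)) ^ 2 := Nat.pow_le_pow_left h6 2
      calc 4 * (2 * M + 1) ^ 2 * 4 ^ (4 * κ + 2 + 1) ≤ 4 * (2 * m ^ (2 * κ + 1)) ^ 2 * 4 ^ (4 * κ + 2 + 1) :=
            Nat.mul_le_mul_right _ (Nat.mul_le_mul_left _ h7)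
        _ = 4 ^ (4 * κ + 5) * m ^ (4 * κ + 2) := by
            rw [show 4 * κ + 2 = (2 * κ + 1) * 2 by ring, pow_mul, pow_succ,
              show 4 * κ + 5 = (2 * κ + 1) * 2 + 3 by ring, pow_add]
            ring
        _ ≤ m * m ^ (4 * κ + 2) := Nat.mul_le_mul_right _ hbig
        _ = m ^ (4 * κ + 2 + 1) := by ring)
  refine ⟨d, h1, h2, ?_, h5⟩
  calc d ≤ m * M := h3
    _ < m * m ^ (2 * κ + 1) := by
        apply Nat.mul_lt_mul_of_pos_left
        · omega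
        · omega
    _ = m ^ (2 * κ + 2) := by ring

end Pool.Agent.Helper29.LDV
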