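import Pool.Agent.Helper29.LDV.Sieve3

/-!
# LDV/Exists3: existence of arbitrarily large admissible arguments
-/

set_option autoImplicit false

namespace Pool.Agent.Helper29.LDV

open Finset Pool.Agent.Helper51.Pell

private theorem prime_ge {F p : ℕ} (h30 : 30 ∣ F) (hp : p.Prime) (hc : Nat.Coprime (4 * F) p) : 7 ≤ p := by
  by_contra hcon
  push Not at hcon
  have h2 : ¬ p ∣ 4 * F := by
    intro h
    exact hp.one_lt.ne' (Nat.dvd_one.1 (by
      have := Nat.dvd_gcd h (dvd_refl p)
      rwa [Nat.coprime_iff_gcd_eq_one.1 hc] at this))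
  have h3 : p ∣ 30 → False := fun h => h2 ((h.trans h30).mul_left 4)
  have h4 := hp.two_le
  have h5 : p = 2 ∨ p = 3 ∨ p = 4 ∨ p = 5 ∨ p = 6 := by omega
  rcases h5 with rfl | rfl | rfl | rfl | rfl
  · exact h3 (by norm_num)
  · exact h3 (by norm_num)
  · exact absurd hp (by norm_num)
  · exact h3 (by norm_num)
  · exact absurd hp (by norm_num)

private theorem cop_of {a c L p : ℕ} (hp : p.Prime) (h : p ∣ 1 + a) (hL : L ∣ c * a) (hc : Nat.Coprime p c) :
    Nat.Coprime L p := by
  rw [Nat.coprime_comm, hp.coprime_iff_not_dvd]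
  intro h1
  have h2 : p ∣ c * a := h1.trans hL
  have h3 : p ∣ a := hc.dvd_of_dvd_mul_left h2
  exact hp.one_lt.ne' (Nat.dvd_one.1 ((Nat.dvd_add_left h3).1 h))

/-- the number of bad `j < J` -/
theorem bad_count (F J : ℕ) (hF : 0 < F) (h30 : 30 ∣ F) :
    (((range J).filter (fun j => ¬ (Squarefree (1 + 4 * F * j) ∧ Squarefree (1 + 2 * F * j) ∧
      Squarefree (1 + (1 + 4 * F * j) * (4 * F * j))))).card : ℝ) ≤
      8 / 13 * J + 4 * (Nat.primeCounting (2 + 4 * F * J) : ℝ) := by
  classical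
  set L := 4 * F with hL
  set K := 2 + L * J with hK
  set S := (Ico 7 K).filter (fun p => p.Prime ∧ Nat.Coprime L p) with hS
  have hsub : (range J).filter (fun j => ¬ (Squarefree (1 + L * j) ∧ Squarefree (1 + 2 * F * j) ∧
      Squarefree (1 + (1 + L * j) * (L * j)))) ⊆
      S.biUnion (fun p => (range J).filter (fun j => p ^ 2 ∣ 1 + L * j) ∪
        (range J).filter (fun j => p ^ 2 ∣ 1 + 2 * F * j) ∪
        (range J).filter (fun j => p ^ 2 ∣ 1 + (1 + L * j) * (L * j))) := by
    intro j hj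
    rw [mem_filter, mem_range] at hj
    obtain ⟨hjJ, hns⟩ := hj
    have hjK : L * j + 1 < K := by
      have := Nat.mul_le_mul_left L hjJ.le
      omega
    have hmain : ∃ p : ℕ, p.Prime ∧ Nat.Coprime L p ∧ p < K ∧
        (p ^ 2 ∣ 1 + L * j ∨ p ^ 2 ∣ 1 + 2 * F * j ∨ p ^ 2 ∣ 1 + (1 + L * j) * (L * j)) := by
      by_cases h1 : Squarefree (1 + L * j)
      · by_cases h2 : Squarefree (1 + 2 * F * j)
        · have h3 : ¬ Squarefree (1 + (1 + L * j) * (L * j)) := fun h => hns ⟨h1, h2, h⟩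
          rw [Nat.squarefree_iff_prime_squarefree] at h3
          push Not at h3
          obtain ⟨p, hp, hpd⟩ := h3
          refine ⟨p, hp, ?_, ?_, Or.inr (Or.inr (by rw [pow_two]; exact hpd))⟩
          · refine cop_of (c := 1) hp ((Dvd.intro p rfl).trans hpd) ?_ (Nat.coprime_one_right _)
            rw [one_mul]
            exact (dvd_mul_right L j).mul_left _
          · have h4 := Nat.le_of_dvd (by omega) hpd
            by_contra h5
            push Not at h5
            have h6 : K * K ≤ p * p := Nat.mul_le_mul h5 h5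
            have h7 : (L * j + 2) * (L * j + 2) ≤ K * K := Nat.mul_le_mul (by omega) (by omega)
            have h8 : (L * j + 2) * (L * j + 2) ≤ 1 + (1 + L * j) * (L * j) := h7.trans (h6.trans h4)
            generalize L * j = z at h8
            nlinarith
        · rw [Nat.squarefree_iff_prime_squarefree] at h2
          push Not at h2
          obtain ⟨p, hp, hpd⟩ := h2
          have hp1 : p ∣ 1 + 2 * F * j := (Dvd.intro p rfl).trans hpd
          have hp2 : p ≠ 2 := by
            rintro rfl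
            have e : 1 + 2 * F * j = 1 + 2 * (F * j) := by ring
            rw [e] at hp1
            omega
          refine ⟨p, hp, ?_, ?_, Or.inr (Or.inl (by rw [pow_two]; exact hpd))⟩
          · refine cop_of (c := 2) hp hp1 ⟨j, by rw [hL]; ring⟩ ?_
            rw [hp.coprime_iff_not_dvd]
            intro h
            exact hp2 ((Nat.prime_dvd_prime_iff_eq hp Nat.prime_two).1 h)
          · have h4 := Nat.le_of_dvd (by omega) hp1
            have h5 : 2 * F * j ≤ L * j := Nat.mul_le_mul_right j (by omega)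
            omega
      · rw [Nat.squarefree_iff_prime_squarefree] at h1
        push Not at h1
        obtain ⟨p, hp, hpd⟩ := h1
        have hp1 : p ∣ 1 + L * j := (Dvd.intro p rfl).trans hpd
        refine ⟨p, hp, ?_, ?_, Or.inl (by rw [pow_two]; exact hpd)⟩
        · refine cop_of (c := 1) hp hp1 ?_ (Nat.coprime_one_right _)
          rw [one_mul]
          exact dvd_mul_right L j
        · have h4 := Nat.le_of_dvd (by omega) hp1
          omega
    obtain ⟨p, hp, hc, hpK, hpd⟩ := hmain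
    rw [mem_biUnion]
    refine ⟨p, ?_, ?_⟩
    · rw [hS, mem_filter, mem_Ico]
      exact ⟨⟨prime_ge h30 hp hc, hpK⟩, hp, hc⟩
    · rw [mem_union, mem_union, mem_filter, mem_filter, mem_filter, mem_range]
      tauto
  have h1 : ((range J).filter (fun j => ¬ (Squarefree (1 + L * j) ∧ Squarefree (1 + 2 * F * j) ∧
      Squarefree (1 + (1 + L * j) * (L * j))))).card ≤ ∑ p ∈ S, 4 * (J / p ^ 2 + 1) := by
    refine (card_le_card hsub).trans (card_biUnion_le.trans (sum_le_sum ?_))
    intro p hp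
    rw [hS, mem_filter, mem_Ico] at hp
    obtain ⟨⟨hp7, -⟩, hpp, hc⟩ := hp
    have c1 := card_dvd_le 1 L (p ^ 2) J (pow_pos hpp.pos 2) (hc.pow_right 2)
    have hc2 : Nat.Coprime (2 * F) p := by
      have : 2 * F ∣ L := ⟨2, by rw [hL]; ring⟩
      exact Nat.Coprime.coprime_dvd_left this hc
    have c2 := card_dvd_le 1 (2 * F) (p ^ 2) J (pow_pos hpp.pos 2) (hc2.pow_right 2)
    have c3 := card_quad_le L p J hpp (by omega) hc
    have c4 := card_union_le ((range J).filter (fun j => p ^ 2 ∣ 1 + L * j))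
      ((range J).filter (fun j => p ^ 2 ∣ 1 + 2 * F * j))
    have c5 := card_union_le ((range J).filter (fun j => p ^ 2 ∣ 1 + L * j) ∪
      (range J).filter (fun j => p ^ 2 ∣ 1 + 2 * F * j))
      ((range J).filter (fun j => p ^ 2 ∣ 1 + (1 + L * j) * (L * j)))
    omega
  have h2 : (((∑ p ∈ S, 4 * (J / p ^ 2 + 1) : ℕ)) : ℝ) ≤
      4 * (∑ p ∈ S, (J : ℝ) * (1 / (p : ℝ) ^ 2)) + 4 * (S.card : ℝ) := by
    rw [mul_sum, ← nsmul_eq_mul' (4 : ℝ) S.card, ← sum_const, ← sum_add_distrib]
    push_cast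
    refine sum_le_sum fun k hk => ?_
    have : ((J / k ^ 2 : ℕ) : ℝ) ≤ (J : ℝ) / ((k ^ 2 : ℕ) : ℝ) := Nat.cast_div_le
    push_cast at this
    rw [mul_one_div]
    linarith
  have h3 : ∑ p ∈ S, (J : ℝ) * (1 / (p : ℝ) ^ 2) ≤ (J : ℝ) * (2 / 13) := by
    rw [← mul_sum]
    apply mul_le_mul_of_nonneg_left _ (by positivity)
    refine le_trans ?_ (sum_inv_sq7 K)
    apply sum_le_sum_of_subset_of_nonneg
    · exact filter_subset _ _
    · intros; positivity
  have h4 : S.card ≤ Nat.primeCounting K := by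
    rw [Nat.primeCounting, Nat.primeCounting', Nat.count_eq_card_filter_range]
    apply card_le_card
    intro p hp
    rw [hS, mem_filter, mem_Ico] at hp
    rw [mem_filter, mem_range]
    exact ⟨by omega, hp.2.1⟩
  have h4' : (S.card : ℝ) ≤ (Nat.primeCounting K : ℝ) := by exact_mod_cast h4
  have h1' : (((range J).filter (fun j => ¬ (Squarefree (1 + L * j) ∧ Squarefree (1 + 2 * F * j) ∧
      Squarefree (1 + (1 + L * j) * (L * j))))).card : ℝ) ≤ ((∑ p ∈ S, 4 * (J / p ^ 2 + 1) : ℕ) : ℝ) := by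
    exact_mod_cast h1
  linarith

/-- three polynomials are simultaneously squarefree for arbitrarily large arguments -/
theorem exists_three (F : ℕ) (hF : 0 < F) (h30 : 30 ∣ F) (J0 : ℕ) :
    ∃ j, J0 ≤ j ∧ Squarefree (1 + 4 * F * j) ∧ Squarefree (1 + 2 * F * j) ∧
      Squarefree (1 + (1 + 4 * F * j) * (4 * F * j)) := by
  classical
  by_contra hcon
  have key : ∀ J : ℕ, (J : ℝ) ≤ J0 + (8 / 13 * J + 4 * (Nat.primeCounting (2 + 4 * F * J) : ℝ)) := by
    intro J
    have hsub : range J ⊆ range J0 ∪ (range J).filter (fun j => ¬ (Squarefree (1 + 4 * F * j) ∧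
        Squarefree (1 + 2 * F * j) ∧ Squarefree (1 + (1 + 4 * F * j) * (4 * F * j)))) := by
      intro j hj
      rw [mem_union, mem_filter, mem_range]
      by_cases h : j < J0
      · exact Or.inl h
      · exact Or.inr ⟨hj, fun h' => hcon ⟨j, by omega, h'⟩⟩
    have h1 := (card_le_card hsub).trans (card_union_le _ _)
    rw [card_range, card_range] at h1
    have h2 := bad_count F J hF h30
    have h3 : (J : ℝ) ≤ (J0 : ℝ) + (((range J).filter (fun j => ¬ (Squarefree (1 + 4 * F * j) ∧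
        Squarefree (1 + 2 * F * j) ∧ Squarefree (1 + (1 + 4 * F * j) * (4 * F * j))))).card : ℝ) := by
      exact_mod_cast h1
    linarith
  -- Chebyshev
  set L : ℝ := 4 * (F : ℝ) with hL
  have hL1 : (1 : ℝ) ≤ L := by
    have : (1 : ℝ) ≤ F := by exact_mod_cast hF
    rw [hL]; linarith
  have h1 := Chebyshev.eventually_primeCounting_le (ε := 1) one_pos
  have h2 : ∀ᶠ x : ℝ in Filter.atTop, 40 * L * (Real.log 4 + 1) ≤ Real.log x :=
    Real.tendsto_log_atTop.eventually_ge_atTop _
  obtain ⟨a, ha⟩ := (h1.and h2).exists_forall_of_atTop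
  set J := ⌈a⌉₊ + 4 * (J0 + 1) + 10 with hJ
  have hJa : a ≤ (J : ℝ) := by
    have h3 : a ≤ (⌈a⌉₊ : ℝ) := Nat.le_ceil a
    have h4 : (⌈a⌉₊ : ℝ) ≤ (J : ℝ) := by
      have : ⌈a⌉₊ ≤ J := by omega
      exact_mod_cast this
    linarith
  have hxa : a ≤ ((2 + 4 * F * J : ℕ) : ℝ) := by
    have h3 : (J : ℝ) ≤ ((2 + 4 * F * J : ℕ) : ℝ) := by
      have : J ≤ 2 + 4 * F * J := by
        have : J ≤ 4 * F * J := Nat.le_mul_of_pos_left J (by omega)
        omega
      exact_mod_cast this
    linarith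
  obtain ⟨h5, h6⟩ := ha _ hxa
  rw [Nat.floor_natCast] at h5
  set x : ℝ := ((2 + 4 * F * J : ℕ) : ℝ) with hx
  have hx0 : 0 < x := by
    have h3 : 0 < 2 + 4 * F * J := by omega
    rw [hx]
    exact Nat.cast_pos.2 h3
  have hlog4 : 0 < Real.log 4 + 1 := by
    have := Real.log_pos (by norm_num : (1 : ℝ) < 4)
    linarith
  have hlogx : 0 < Real.log x := lt_of_lt_of_le (by positivity) h6
  have h7 : (Real.log 4 + 1) * x / Real.log x ≤ x / (40 * L) := by
    rw [div_le_div_iff₀ hlogx (by positivity)]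
    have := mul_le_mul_of_nonneg_right h6 hx0.le
    linarith
  have h8 := key J
  have h9 : x = 2 + L * J := by rw [hx, hL]; push_cast; ring
  have h10 : x / (40 * L) ≤ 1 / 20 + J / 40 := by
    rw [h9, div_le_iff₀ (by positivity)]
    nlinarith
  have h11 : (J : ℝ) ≥ 4 * (J0 + 1) + 10 := by
    have : 4 * (J0 + 1) + 10 ≤ J := by omega
    exact_mod_cast this
  have h12 : (Nat.primeCounting (2 + 4 * F * J) : ℝ) ≤ 1 / 20 + J / 40 := h5.trans (h7.trans h10)
  linarith

end Pool.Agent.Helper29.LDV
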