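import Pool.Agent.Helper29.LDV.Build
import Pool.Agent.Helper29.LDV.Binom3
import Pool.Agent.Helper29.LDV.Exists3
import Pool.Agent.Helper51.Pell.Main

/-!
# LDV/Main3: the family `m = T (T³ + 1) / 2`
-/

set_option autoImplicit false

namespace Pool.Agent.Helper29.LDV

open Pool.Agent.Helper51.Pell

private theorem large_prime3 {n a p : ℕ} (hp : p.Prime) (hpd : p ∣ 1 + a) (ha : n.factorial ∣ a) : n < p := by
  by_contra hcon
  push Not at hcon
  have h1 : p ∣ a := ((hp.dvd_factorial).2 hcon).trans ha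
  exact hp.one_lt.ne' (Nat.dvd_one.1 ((Nat.dvd_add_left h1).1 hpd))

private theorem alg_id3 (S T R Q : ℤ) (κ : ℕ) :
    4 * (S ^ (2 * κ + 1) * R) * (T ^ (2 * κ + 1) * Q) + 1 = (2 * (T * S) ^ κ) ^ 2 * (T * S * (R * Q)) + 1 := by
  ring

theorem partC (μ B : ℕ) :
    ∃ m d : ℕ, B < m ∧ Squarefree d ∧ m ∣ d ∧ m % 2 = 1 ∧ d ^ 2 ≤ (64 * m) ^ (12 * μ + 5) ∧
      ∃ t u : ℤ, IsFundamental d t u ∧ ((m : ℤ) ^ (3 * μ + 1)) ∣ u := by
  set n := 12 * μ + 5 with hn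
  set F := n.factorial with hF
  have hF0 : 0 < F := Nat.factorial_pos n
  have h30 : 30 ∣ F := by
    have h1 : Nat.factorial 5 ∣ F := Nat.factorial_dvd_factorial (by omega)
    exact (by decide : 30 ∣ Nat.factorial 5).trans h1
  obtain ⟨j, hj, s1, s2, s3⟩ := exists_three F hF0 h30 (2 ^ (10 * μ + 5) + B)
  have hjF : j ≤ F * j := Nat.le_mul_of_pos_left j hF0
  set y := 1 + 2 * F * j with hy
  set T := 1 + 4 * F * j with hT
  set q := 1 + T * (4 * F * j) with hq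
  have hTy : T + 1 = 2 * y := by rw [hy, hT]; ring
  have hybig : 2 ^ (10 * μ + 5) + B < y := by
    have : y = 1 + 2 * (F * j) := by rw [hy]; ring
    omega
  have h32 : 2 ^ 5 ≤ 2 ^ (10 * μ + 5) := Nat.pow_le_pow_right (by norm_num) (by omega)
  norm_num at h32
  have hyT : y ≤ T := by omega
  have hT4 : 4 * F * j = T - 1 := by omega
  have hPT : ∀ p : ℕ, p.Prime → p ∣ T → n < p := fun p hp hpT =>
    large_prime3 hp hpT ⟨4 * j, by rw [← hF]; ring⟩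
  have hPy : ∀ p : ℕ, p.Prime → p ∣ y → n < p := fun p hp hpT =>
    large_prime3 hp hpT ⟨2 * j, by rw [← hF]; ring⟩
  have hPq : ∀ p : ℕ, p.Prime → p ∣ q → n < p := fun p hp hpT =>
    large_prime3 hp hpT ⟨T * (4 * j), by rw [← hF]; ring⟩
  -- integer forms
  have hqz : (q : ℤ) = (T : ℤ) ^ 2 - T + 1 := by
    have e : (4 : ℤ) * F * j = T - 1 := by
      rw [hT]; push_cast; ring
    rw [hq]
    push_cast
    rw [e]
    ring
  have hTyz : (1 : ℤ) + T = 2 * y := by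
    have : ((T + 1 : ℕ) : ℤ) = ((2 * y : ℕ) : ℤ) := by rw [hTy]
    push_cast at this
    linarith
  have hcTy : Nat.Coprime T y := by
    rw [Nat.coprime_iff_gcd_eq_one]
    have h1 : Nat.gcd T y ∣ T + 1 := by rw [hTy]; exact (Nat.gcd_dvd_right _ _).mul_left 2
    exact Nat.dvd_one.1 ((Nat.dvd_add_right (Nat.gcd_dvd_left T y)).1 h1)
  have hcTq : Nat.Coprime T q := by
    rw [Nat.coprime_iff_gcd_eq_one]
    have h1 : Nat.gcd T q ∣ 1 + T * (4 * F * j) := Nat.gcd_dvd_right _ _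
    exact Nat.dvd_one.1 ((Nat.dvd_add_left ((Nat.gcd_dvd_left T q).mul_right _)).1 h1)
  have hcyq : Nat.Coprime y q := by
    rw [Nat.coprime_iff_gcd_eq_one]
    by_contra hg
    obtain ⟨p, hp, hpg⟩ := Nat.exists_prime_and_dvd hg
    have h1 : p ∣ y := hpg.trans (Nat.gcd_dvd_left _ _)
    have h2 : p ∣ q := hpg.trans (Nat.gcd_dvd_right _ _)
    have h3 : (p : ℤ) ∣ 1 + (T : ℤ) := by
      rw [hTyz]
      exact (Int.natCast_dvd_natCast.2 h1).mul_left 2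
    have h4 : (p : ℤ) ∣ (T : ℤ) ^ 2 - T + 1 := by
      rw [← hqz]
      exact_mod_cast h2
    have h5 : (p : ℤ) ∣ 3 := by
      have e : (3 : ℤ) = ((T : ℤ) ^ 2 - T + 1) - (1 + (T : ℤ)) * (T - 2) := by ring
      rw [e]
      exact dvd_sub h4 (h3.mul_right _)
    have h6 : p ∣ 3 := by exact_mod_cast h5
    have h7 := Nat.le_of_dvd (by norm_num) h6
    have h8 := hPy p hp h1
    omega
  have hm : Squarefree (T * y * q) := squarefree_three s1 s2 s3 hcTy hcTq hcyq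
  have hTodd : T % 2 = 1 := by
    have : T = 1 + 2 * (2 * (F * j)) := by rw [hT]; ring
    omega
  have hyodd : y % 2 = 1 := by
    have : y = 1 + 2 * (F * j) := by rw [hy]; ring
    omega
  have hqodd : q % 2 = 1 := by
    have : q = 1 + 2 * (T * (2 * (F * j))) := by rw [hq]; ring
    omega
  have hmodd : (T * y * q) % 2 = 1 := by
    rw [Nat.mul_mod, Nat.mul_mod T, hTodd, hyodd, hqodd]
  have hPm : ∀ p : ℕ, p.Prime → p ∣ T * y * q → n < p := by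
    intro p hp hpm
    rcases (hp.dvd_mul).1 hpm with h | h
    · exact ((hp.dvd_mul).1 h).elim (hPT p hp) (hPy p hp)
    · exact hPq p hp h
  -- W = T³ + 1
  set W := T ^ 3 + 1 with hW
  have hWz : (1 : ℤ) + (T : ℤ) ^ 3 = W := by rw [hW]; push_cast; ring
  have h2mz : (2 : ℤ) * (T * y * q) = T * W := by
    rw [← hWz, hqz]
    linear_combination (T : ℤ) * ((T : ℤ) ^ 2 - T + 1) * (-hTyz)
  have h2m : 2 * (T * y * q) = T * W := by exact_mod_cast h2mz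
  have hT2 : 2 ≤ T := by omega
  have hZ2 : (2 : ℤ) ≤ (T : ℤ) ^ 3 := by
    have : 2 ≤ T ^ 3 := hT2.trans (Nat.le_self_pow (by norm_num) T)
    exact_mod_cast this
  set κ := 3 * μ + 1 with hκ
  have hRQ := RQ3_pos κ μ hZ2
  set R := R3 κ μ ((T : ℤ) ^ 3) with hR
  set Q := Q3 κ μ ((T : ℤ) ^ 3) with hQ
  set E := (R * Q).toNat with hE
  have hEz : (E : ℤ) = R * Q := Int.toNat_of_nonneg hRQ.le
  set X := (2 * (W : ℤ) ^ (2 * κ + 1) * R - 1).natAbs with hX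
  have hXz : (X : ℤ) = |2 * (W : ℤ) ^ (2 * κ + 1) * R - 1| := Int.natCast_natAbs _
  have hid := ident3 κ μ ((T : ℤ) ^ 3)
  rw [← hR, ← hQ, hWz, ← pow_mul, show 3 * (2 * μ + 1) = 2 * κ + 1 by rw [hκ]; ring] at hid
  have hX2z : (X : ℤ) ^ 2 = (2 * (T * W) ^ κ) ^ 2 * (T * W * (R * Q)) + 1 := by
    rw [hXz, sq_abs]
    have e1 : (2 * (W : ℤ) ^ (2 * κ + 1) * R - 1) ^ 2 =
        4 * ((W : ℤ) ^ (2 * κ + 1) * R) * ((W : ℤ) ^ (2 * κ + 1) * R - 1) + 1 := by ring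
    have e2 : (W : ℤ) ^ (2 * κ + 1) * R - 1 = (T : ℤ) ^ (2 * κ + 1) * Q := by rw [hid]; ring
    rw [e1, e2]
    exact alg_id3 _ _ _ _ κ
  have hX2 : X ^ 2 = (2 * (2 * (T * y * q)) ^ κ) ^ 2 * (T * y * q * (2 * E)) + 1 := by
    have : ((X ^ 2 : ℕ) : ℤ) = (((2 * (2 * (T * y * q)) ^ κ) ^ 2 * (T * y * q * (2 * E)) + 1 : ℕ) : ℤ) := by
      push_cast
      rw [hX2z, hEz, ← h2mz]
      ring
    exact_mod_cast this
  have hcE : Nat.Coprime (T * y * q) (2 * E) := by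
    rw [Nat.coprime_iff_gcd_eq_one]
    by_contra hg
    obtain ⟨p, hp, hpg⟩ := Nat.exists_prime_and_dvd hg
    have h1 : p ∣ T * y * q := hpg.trans (Nat.gcd_dvd_left _ _)
    have h2 : p ∣ 2 * E := hpg.trans (Nat.gcd_dvd_right _ _)
    have hnp := hPm p hp h1
    have hp2 : p ≠ 2 := by
      rintro rfl
      have := Nat.mod_eq_zero_of_dvd h1
      omega
    have hpZ : Prime (p : ℤ) := Nat.prime_iff_prime_int.1 hp
    have h3 : p ∣ E := by
      rcases (hp.dvd_mul).1 h2 with h | h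
      · exact absurd ((Nat.prime_dvd_prime_iff_eq hp Nat.prime_two).1 h) hp2
      · exact h
    have h4 : (p : ℤ) ∣ R * Q := by
      rw [← hEz]
      exact_mod_cast h3
    have hlt : 2 * κ + 2 * μ + 1 < p := by omega
    have h5 : p ∣ T * W := by
      rw [← h2m]
      exact h1.mul_left 2
    rcases (hp.dvd_mul).1 h5 with h | h
    · have h6 : (p : ℤ) ∣ (T : ℤ) ^ 3 := dvd_pow (by exact_mod_cast h) (by norm_num)
      rcases hpZ.dvd_or_dvd h4 with h7 | h7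
      · exact R3_of_dvd' hp h6 h7
      · exact Q3_of_dvd hp hlt h6 h7
    · have h6 : (p : ℤ) ∣ 1 + (T : ℤ) ^ 3 := by
        rw [hWz]
        exact_mod_cast h
      rcases hpZ.dvd_or_dvd h4 with h7 | h7
      · exact R3_of_dvd hp hlt h6 h7
      · exact Q3_of_dvd' hp h6 h7
  have hT0 : (0 : ℤ) ≤ (T : ℤ) ^ 3 := by positivity
  have hRb := R3_bound κ μ hT0
  have hQb := Q3_bound κ μ hT0
  rw [← hR, hWz] at hRb
  rw [← hQ, hWz] at hQb
  have hW0 : 0 < W := by omega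
  have hT0' : 0 < T := by omega
  have hWT : W ≤ 2 * T ^ 3 := by
    have : 0 < T ^ 3 := by positivity
    omega
  -- size of X
  have hXb : X ≤ 2 ^ (8 * μ + 5) * W ^ (8 * μ + 3) := by
    have h1 : (X : ℤ) ≤ 2 * (W : ℤ) ^ (2 * κ + 1) * |R| + 1 := by
      rw [hXz]
      calc |2 * (W : ℤ) ^ (2 * κ + 1) * R - 1| ≤ |2 * (W : ℤ) ^ (2 * κ + 1) * R| + |1| := abs_sub _ _
        _ = 2 * (W : ℤ) ^ (2 * κ + 1) * |R| + 1 := by
            rw [abs_mul, abs_of_nonneg (by positivity : (0 : ℤ) ≤ 2 * (W : ℤ) ^ (2 * κ + 1)), abs_one]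
    have h2 : 2 * (W : ℤ) ^ (2 * κ + 1) * |R| ≤ 2 * (W : ℤ) ^ (2 * κ + 1) * (2 ^ (2 * κ + 2 * μ + 1) * (W : ℤ) ^ (2 * μ)) :=
      mul_le_mul_of_nonneg_left hRb (by positivity)
    have h3 : 2 * (W : ℤ) ^ (2 * κ + 1) * (2 ^ (2 * κ + 2 * μ + 1) * (W : ℤ) ^ (2 * μ)) =
        2 ^ (8 * μ + 4) * (W : ℤ) ^ (8 * μ + 3) := by
      rw [hκ]
      ring
    have h4 : (1 : ℤ) ≤ 2 ^ (8 * μ + 4) * (W : ℤ) ^ (8 * μ + 3) := by
      have : 0 < 2 ^ (8 * μ + 4) * W ^ (8 * μ + 3) := by positivity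
      exact_mod_cast this
    have h5 : (X : ℤ) ≤ 2 ^ (8 * μ + 5) * (W : ℤ) ^ (8 * μ + 3) := by
      have : (2 : ℤ) ^ (8 * μ + 5) * (W : ℤ) ^ (8 * μ + 3) = 2 * (2 ^ (8 * μ + 4) * (W : ℤ) ^ (8 * μ + 3)) := by ring
      linarith
    exact_mod_cast h5
  have hy0 : 0 < y := by omega
  have hq0 : 0 < q := by omega
  have hmy : y ≤ T * y * q := by
    calc y = 1 * y * 1 := by ring
      _ ≤ T * y * q := Nat.mul_le_mul (Nat.mul_le_mul_right _ hT0') hq0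
  have hX1 : 1 < X := by
    by_contra hcon
    push Not at hcon
    have h1 : X ^ 2 ≤ 1 := by
      calc X ^ 2 ≤ 1 ^ 2 := Nat.pow_le_pow_left hcon 2
        _ = 1 := by norm_num
    have h2 : 0 < (2 * (2 * (T * y * q)) ^ κ) ^ 2 * (T * y * q * (2 * E)) := by
      have hE0 : 0 < E := by
        have : (0 : ℤ) < E := by rw [hEz]; exact hRQ
        exact_mod_cast this
      positivity
    omega
  have hsize : 4 * X ^ 2 * 4 ^ (n + 1) ≤ (T * y * q) ^ (n + 1) := by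
    have h7 : X ^ 2 ≤ (2 ^ (8 * μ + 5) * W ^ (8 * μ + 3)) ^ 2 := Nat.pow_le_pow_left hXb 2
    have h8 : 2 ^ (60 * μ + 30) ≤ T ^ 6 := by
      calc 2 ^ (60 * μ + 30) = (2 ^ (10 * μ + 5)) ^ 6 := by rw [← pow_mul]; congr 1; ring
        _ ≤ T ^ 6 := Nat.pow_le_pow_left (by omega) 6
    have h9 : W ^ (4 * μ) ≤ (2 * T ^ 3) ^ (4 * μ) := Nat.pow_le_pow_left hWT _
    have e4 : 4 ^ (n + 1) = 2 ^ (24 * μ + 12) := by
      rw [show (4 : ℕ) ^ (n + 1) = (2 ^ 2) ^ (n + 1) by norm_num, ← pow_mul, hn]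
      congr 1
      ring
    have h10 : 2 ^ (n + 1) * (4 * X ^ 2 * 4 ^ (n + 1)) ≤ 2 ^ (n + 1) * (T * y * q) ^ (n + 1) := by
      calc 2 ^ (n + 1) * (4 * X ^ 2 * 4 ^ (n + 1))
          ≤ 2 ^ (n + 1) * (4 * (2 ^ (8 * μ + 5) * W ^ (8 * μ + 3)) ^ 2 * 4 ^ (n + 1)) :=
            Nat.mul_le_mul_left _ (Nat.mul_le_mul_right _ (Nat.mul_le_mul_left _ h7))
        _ = 2 ^ (52 * μ + 30) * W ^ (4 * μ) * W ^ (12 * μ + 6) := by
            rw [e4, hn]
            ring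
        _ ≤ 2 ^ (52 * μ + 30) * (2 * T ^ 3) ^ (4 * μ) * W ^ (12 * μ + 6) :=
            Nat.mul_le_mul_right _ (Nat.mul_le_mul_left _ h9)
        _ = 2 ^ (56 * μ + 30) * T ^ (12 * μ) * W ^ (12 * μ + 6) := by
            rw [mul_pow, ← pow_mul T]
            ring
        _ ≤ T ^ 6 * T ^ (12 * μ) * W ^ (12 * μ + 6) :=
            Nat.mul_le_mul_right _ (Nat.mul_le_mul_right _
              ((Nat.pow_le_pow_right (by norm_num) (by omega)).trans h8))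
        _ = (T * W) ^ (n + 1) := by
            rw [hn, mul_pow, ← pow_add]
            congr 2
            ring
        _ = 2 ^ (n + 1) * (T * y * q) ^ (n + 1) := by rw [← h2m, mul_pow 2 (T * y * q) (n + 1)]
    exact Nat.le_of_mul_le_mul_left h10 (by positivity)
  obtain ⟨d, h1, h2, h3, h5⟩ := build (κ := κ) (P := n) (X := X) (a := 2 * (2 * (T * y * q)) ^ κ) (E := 2 * E) hm
    (by omega) hmodd ((pow_dvd_pow_of_dvd (dvd_mul_left _ _) κ).mul_left 2) hX1 hcE hX2 hPm hsize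
  refine ⟨T * y * q, d, ?_, h1, h2, hmodd, ?_, h5⟩
  · omega
  · have h6 : (E : ℤ) ≤ 2 ^ (16 * μ + 6) * (W : ℤ) ^ (8 * μ + 2) := by
      rw [hEz]
      calc R * Q ≤ |R * Q| := le_abs_self _
        _ = |R| * |Q| := abs_mul _ _
        _ ≤ (2 ^ (2 * κ + 2 * μ + 1) * (W : ℤ) ^ (2 * μ)) * (2 ^ (2 * κ + 2 * μ + 1) * (W : ℤ) ^ (2 * κ)) :=
            mul_le_mul hRb hQb (abs_nonneg _) (by positivity)
        _ = 2 ^ (16 * μ + 6) * (W : ℤ) ^ (8 * μ + 2) := by rw [hκ]; ring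
    have h7 : E ≤ 2 ^ (16 * μ + 6) * W ^ (8 * μ + 2) := by exact_mod_cast h6
    have h8 : d ≤ T * y * q * (2 * (2 ^ (16 * μ + 6) * W ^ (8 * μ + 2))) :=
      h3.trans (Nat.mul_le_mul_left _ (Nat.mul_le_mul_left _ h7))
    have h9 : W ^ (4 * μ + 1) ≤ (2 * T ^ 3) ^ (4 * μ + 1) := Nat.pow_le_pow_left hWT _
    calc d ^ 2 ≤ (T * y * q * (2 * (2 ^ (16 * μ + 6) * W ^ (8 * μ + 2)))) ^ 2 := Nat.pow_le_pow_left h8 2
      _ = (T * y * q) ^ 2 * 2 ^ (32 * μ + 14) * (W ^ (4 * μ + 1) * W ^ (12 * μ + 3)) := by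
          generalize T * y * q = z
          ring
      _ ≤ (T * y * q) ^ 2 * 2 ^ (32 * μ + 14) * ((2 * T ^ 3) ^ (4 * μ + 1) * W ^ (12 * μ + 3)) :=
          Nat.mul_le_mul_left _ (Nat.mul_le_mul_right _ h9)
      _ = (T * y * q) ^ 2 * 2 ^ (36 * μ + 15) * (T * W) ^ (12 * μ + 3) := by
          rw [mul_pow 2 (T ^ 3), ← pow_mul T, mul_pow T W]
          generalize T * y * q = z
          ring
      _ = 2 ^ (48 * μ + 18) * (T * y * q) ^ (12 * μ + 5) := by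
          rw [← h2m, mul_pow 2 (T * y * q) (12 * μ + 3)]
          generalize T * y * q = z
          ring
      _ ≤ 64 ^ (12 * μ + 5) * (T * y * q) ^ (12 * μ + 5) := by
          apply Nat.mul_le_mul_right
          calc 2 ^ (48 * μ + 18) ≤ 2 ^ (6 * (12 * μ + 5)) := Nat.pow_le_pow_right (by norm_num) (by omega)
            _ = 64 ^ (12 * μ + 5) := by rw [pow_mul]; norm_num
      _ = (64 * (T * y * q)) ^ (12 * μ + 5) := (mul_pow 64 (T * y * q) (12 * μ + 5)).symm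

end Pool.Agent.Helper29.LDV
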