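import Pool.Agent.Helper51.Pell.Sieve

/-!
# LDV/Sieve3: `T`, `(T+1)/2` and `T² - T + 1` squarefree simultaneously, `T ≡ 1 mod 4 F`
-/

set_option autoImplicit false

namespace Pool.Agent.Helper29.LDV

open Finset Pool.Agent.Helper51.Pell

/-- sum of the inverse squares from seven on -/
theorem sum_inv_sq7 (K : ℕ) : ∑ k ∈ Ico 7 K, (1 : ℝ) / (k : ℝ) ^ 2 ≤ 2 / 13 := by
  have key : ∀ k : ℕ, 3 ≤ k → (1 : ℝ) / (k : ℝ) ^ 2 ≤ 2 / (2 * k - 1) - 2 / (2 * k + 1) := by
    intro k hk
    have hk' : (3 : ℝ) ≤ k := by exact_mod_cast hk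
    rw [div_sub_div _ _ (by linarith) (by linarith), div_le_div_iff₀ (by positivity)
      (by nlinarith)]
    nlinarith
  rcases le_or_gt K 7 with h | h
  · rw [Ico_eq_empty (by omega)]; norm_num
  · have : ∑ k ∈ Ico 7 K, (1 : ℝ) / (k : ℝ) ^ 2 ≤ 2 / 13 - 2 / (2 * K - 1) := by
      obtain ⟨n, rfl⟩ := Nat.exists_eq_add_of_le h.le
      clear h
      induction n with
      | zero => simp; norm_num
      | succ n ih =>
        rw [← add_assoc, sum_Ico_succ_top (by omega)]
        have := key (7 + n) (by omega)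
        push_cast at this ih ⊢
        have e : (2 * (7 + (n : ℝ)) + 1) = 2 * (7 + (n : ℝ) + 1) - 1 := by ring
        rw [e] at this
        linarith
    have h2 : (0 : ℝ) ≤ 2 / (2 * K - 1) := by
      have : (7 : ℝ) < K := by exact_mod_cast h
      apply div_nonneg <;> linarith
    linarith

/-- the quadratic form: at most two classes modulo `p²` -/
theorem card_quad_le (L p J : ℕ) (hp : p.Prime) (h5 : 5 ≤ p) (hL : Nat.Coprime L p) :
    ((range J).filter (fun j => p ^ 2 ∣ 1 + (1 + L * j) * (L * j))).card ≤ 2 * (J / p ^ 2 + 1) := by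
  classical
  have hLp : Nat.Coprime L (p ^ 2) := hL.pow_right 2
  rcases Finset.eq_empty_or_nonempty ((range J).filter (fun j => p ^ 2 ∣ 1 + (1 + L * j) * (L * j))) with
    h | ⟨j0, hj0⟩
  · rw [h]; simp
  · rw [mem_filter] at hj0
    have hpZ : Prime (p : ℤ) := Nat.prime_iff_prime_int.1 hp
    -- each solution is in one of two classes
    have hcl : ∀ j ∈ (range J).filter (fun j => p ^ 2 ∣ 1 + (1 + L * j) * (L * j)),
        j ≡ j0 [MOD p ^ 2] ∨ p ^ 2 ∣ (1 + L * j0) + L * j := by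
      intro j hj
      rw [mem_filter] at hj
      have h1 : ((p : ℤ) ^ 2) ∣ 1 + (1 + L * j) * (L * j) := by exact_mod_cast hj.2
      have h2 : ((p : ℤ) ^ 2) ∣ 1 + (1 + L * j0) * (L * j0) := by exact_mod_cast hj0.2
      have h3 : ((p : ℤ) ^ 2) ∣ ((L : ℤ) * j - L * j0) * (L * j + L * j0 + 1) := by
        have := dvd_sub h1 h2
        have e : (1 + (1 + (L : ℤ) * j) * (L * j)) - (1 + (1 + L * j0) * (L * j0)) =
            ((L : ℤ) * j - L * j0) * (L * j + L * j0 + 1) := by ring
        rwa [e] at this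
      by_cases hd : (p : ℤ) ∣ (L : ℤ) * j - L * j0
      · left
        have h4 : ¬ (p : ℤ) ∣ (L : ℤ) * j + L * j0 + 1 := by
          intro h5'
          have h6 : (p : ℤ) ∣ 2 * ((L : ℤ) * j0) + 1 := by
            have := dvd_sub h5' hd
            have e : ((L : ℤ) * j + L * j0 + 1) - ((L : ℤ) * j - L * j0) = 2 * ((L : ℤ) * j0) + 1 := by ring
            rwa [e] at this
          have h7 : (p : ℤ) ∣ 1 + (1 + (L : ℤ) * j0) * (L * j0) := (dvd_pow_self _ (by norm_num)).trans h2
          have h8 : (p : ℤ) ∣ 3 := by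
            have e : (3 : ℤ) = 4 * (1 + (1 + (L : ℤ) * j0) * (L * j0)) - (2 * ((L : ℤ) * j0) + 1) * (2 * ((L : ℤ) * j0) + 1) := by
              ring
            rw [e]
            exact dvd_sub (h7.mul_left 4) (h6.mul_left _)
          have h9 : p ∣ 3 := by exact_mod_cast h8
          have := Nat.le_of_dvd (by norm_num) h9
          omega
        have h5' : IsCoprime ((p : ℤ) ^ 2) ((L : ℤ) * j + L * j0 + 1) :=
          (hpZ.coprime_iff_not_dvd.2 h4).pow_left
        have h6 : ((p : ℤ) ^ 2) ∣ (L : ℤ) * j - L * j0 := h5'.dvd_of_dvd_mul_right h3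
        have h7 : ((p : ℤ) ^ 2) ∣ (L : ℤ) * ((j : ℤ) - j0) := by
          have e : (L : ℤ) * ((j : ℤ) - j0) = (L : ℤ) * j - L * j0 := by ring
          rwa [e]
        have h8 : IsCoprime ((p : ℤ) ^ 2) (L : ℤ) := by
          have := Nat.isCoprime_iff_coprime.2 hLp.symm
          push_cast at this
          exact this
        have h9 : ((p : ℤ) ^ 2) ∣ (j : ℤ) - j0 := h8.dvd_of_dvd_mul_left h7
        have h10 : (((p ^ 2 : ℕ)) : ℤ) ∣ (j : ℤ) - j0 := by push_cast; exact h9
        exact ((Nat.modEq_iff_dvd).2 h10).symm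
      · right
        have h5' : IsCoprime ((p : ℤ) ^ 2) ((L : ℤ) * j - L * j0) :=
          (hpZ.coprime_iff_not_dvd.2 hd).pow_left
        have h6 : ((p : ℤ) ^ 2) ∣ (L : ℤ) * j + L * j0 + 1 := h5'.dvd_of_dvd_mul_left h3
        have h7 : ((p : ℤ) ^ 2) ∣ (1 + (L : ℤ) * j0) + L * j := by
          have e : (1 + (L : ℤ) * j0) + L * j = (L : ℤ) * j + L * j0 + 1 := by ring
          rwa [e]
        exact_mod_cast h7
    have hsub : (range J).filter (fun j => p ^ 2 ∣ 1 + (1 + L * j) * (L * j)) ⊆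
        (range J).filter (fun j => j ≡ j0 [MOD p ^ 2]) ∪
        (range J).filter (fun j => p ^ 2 ∣ (1 + L * j0) + L * j) := by
      intro j hj
      have h1 := hcl j hj
      rw [mem_filter] at hj
      rw [mem_union, mem_filter, mem_filter]
      rcases h1 with h | h
      · exact Or.inl ⟨hj.1, h⟩
      · exact Or.inr ⟨hj.1, h⟩
    have hc1 : ((range J).filter (fun j => j ≡ j0 [MOD p ^ 2])).card ≤ J / p ^ 2 + 1 := by
      rw [← Nat.count_eq_card_filter_range]
      rw [Nat.count_modEq_card J (pow_pos hp.pos 2)]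
      split_ifs <;> omega
    have hc2 := card_dvd_le (1 + L * j0) L (p ^ 2) J (pow_pos hp.pos 2) hLp
    calc _ ≤ _ := card_le_card hsub
      _ ≤ _ := card_union_le _ _
      _ ≤ 2 * (J / p ^ 2 + 1) := by omega

end Pool.Agent.Helper29.LDV
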