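import Pool.Agent.Helper29.LDV.Transfer

/-!
# LDV/Small: the transfer for all squarefree moduli, with the exponent brought down to `1` or `2`
-/

set_option autoImplicit false

namespace Pool.Agent.Helper29.LDV

open Pool.Agent.Helper51.Pell

theorem not_square' {d : ℕ} (hd : Squarefree d) (h1 : 1 < d) : ∀ n : ℤ, (d : ℤ) ≠ n * n := by
  intro r hr
  have h2 : d = r.natAbs * r.natAbs := by
    have h3 : ((r.natAbs * r.natAbs : ℕ) : ℤ) = r * r := by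
      push_cast
      exact abs_mul_abs_self r
    have h4 : ((d : ℕ) : ℤ) = ((r.natAbs * r.natAbs : ℕ) : ℤ) := by rw [h3, hr]
    exact_mod_cast h4
  have h5 : IsUnit r.natAbs := hd _ (by rw [← h2])
  rw [Nat.isUnit_iff] at h5
  rw [h5] at h2
  omega

theorem mod4' {d : ℕ} (hd : Squarefree d) : d % 4 ≠ 0 := by
  intro h
  have h1 : 2 * 2 ∣ d := Nat.dvd_of_mod_eq_zero (by omega)
  have h2 := hd 2 h1
  rw [Nat.isUnit_iff] at h2
  omega

/-- the real identity `X + V √d = ((x + y √d)/2)^k` in `ℤ√d` -/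
theorem ring_eq {d : ℕ} (hd : Squarefree d) (h1 : 1 < d) {x y : ℤ} (X V k : ℕ)
    (hk : (X : ℝ) + V * √(d : ℝ) = ((x + y * √(d : ℝ)) / 2) ^ k) :
    ((2 ^ k : ℤ) : ℤ√(d : ℤ)) * ⟨(X : ℤ), (V : ℤ)⟩ = (⟨x, y⟩ : ℤ√(d : ℤ)) ^ k := by
  have hd0 : (0 : ℤ) ≤ (d : ℤ) := by positivity
  apply Zsqrtd.toReal_injective hd0 (not_square' hd h1)
  rw [map_mul, map_pow]
  have e1 : Zsqrtd.toReal hd0 (⟨(X : ℤ), (V : ℤ)⟩ : ℤ√(d : ℤ)) = (X : ℝ) + V * √(d : ℝ) := by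
    simp [Zsqrtd.toReal]
  have e2 : Zsqrtd.toReal hd0 (⟨x, y⟩ : ℤ√(d : ℤ)) = (x : ℝ) + y * √(d : ℝ) := by
    simp [Zsqrtd.toReal]
  have e3 : Zsqrtd.toReal hd0 ((2 ^ k : ℤ) : ℤ√(d : ℤ)) = (2 : ℝ) ^ k := by
    rw [map_intCast]; push_cast; rfl
  rw [e1, e2, e3, hk, ← mul_pow]
  congr 1
  ring

theorem coef_eq {d : ℕ} (hd : Squarefree d) (h1 : 1 < d) {x y : ℤ} (X V j : ℕ)
    (hk : (X : ℝ) + V * √(d : ℝ) = ((x + y * √(d : ℝ)) / 2) ^ (j + 1)) :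
    ∃ Z : ℤ, (2 : ℤ) ^ (j + 1) * V = y * ((j + 1) * x ^ j + d * Z) := by
  have hring := ring_eq hd h1 X V (j + 1) hk
  obtain ⟨W, Z, hpow⟩ := zpow_coord (d : ℤ) x y j
  rw [hpow] at hring
  refine ⟨Z, ?_⟩
  have := congrArg Zsqrtd.im hring
  rw [Zsqrtd.im_mul, Zsqrtd.re_intCast, Zsqrtd.im_intCast, zero_mul, add_zero] at this
  exact this

theorem coef_one {d : ℕ} (hd : Squarefree d) (h1 : 1 < d) {x y : ℤ} (X V : ℕ)
    (hk : (X : ℝ) + V * √(d : ℝ) = ((x + y * √(d : ℝ)) / 2) ^ 1) : 2 * (V : ℤ) = y := by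
  have hring := ring_eq hd h1 X V 1 hk
  have := congrArg Zsqrtd.im hring
  rw [Zsqrtd.im_mul, Zsqrtd.re_intCast, Zsqrtd.im_intCast, zero_mul, add_zero, pow_one, pow_one] at this
  exact this

theorem coef_two {d : ℕ} (hd : Squarefree d) (h1 : 1 < d) {x y : ℤ} (X V : ℕ)
    (hk : (X : ℝ) + V * √(d : ℝ) = ((x + y * √(d : ℝ)) / 2) ^ 2) : 2 * (V : ℤ) = x * y := by
  have hring := ring_eq hd h1 X V 2 hk
  have := congrArg Zsqrtd.im hring
  rw [Zsqrtd.im_mul, Zsqrtd.re_intCast, Zsqrtd.im_intCast, zero_mul, add_zero, pow_two (⟨x, y⟩ : ℤ√(d : ℤ)),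
    Zsqrtd.im_mul] at this
  dsimp only at this
  linarith

/-- `m` odd, `m ∣ d`: the first coordinate of a unit is prime to `m` -/
theorem cop_x {d : ℕ} {x y : ℤ} (h : x ^ 2 - d * y ^ 2 = 4 ∨ x ^ 2 - d * y ^ 2 = -4) {m : ℕ} (hm : m % 2 = 1)
    (hmd : m ∣ d) : IsCoprime (m : ℤ) x := by
  have h2 : IsCoprime (m : ℤ) 2 := by
    rw [Int.isCoprime_iff_gcd_eq_one]
    have : Nat.gcd m 2 = 1 := by
      rw [← Nat.coprime_iff_gcd_eq_one, Nat.coprime_comm, Nat.prime_two.coprime_iff_not_dvd]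
      omega
    exact_mod_cast this
  have h4 : IsCoprime (m : ℤ) 4 := by
    have := h2.pow_right (n := 2)
    norm_num at this
    exact this
  obtain ⟨q, hq⟩ := hmd
  have hq' : (d : ℤ) = m * q := by exact_mod_cast hq
  have hx2 : IsCoprime (m : ℤ) (x ^ 2) := by
    rcases h with h | h
    · have e : x ^ 2 = 4 + m * (q * y ^ 2) := by rw [hq'] at h; linarith
      rw [e]
      exact h4.add_mul_left_right _
    · have e : x ^ 2 = -4 + m * (q * y ^ 2) := by rw [hq'] at h; linarith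
      rw [e]
      exact (h4.neg_right).add_mul_left_right _
  exact (IsCoprime.pow_right_iff (by norm_num)).1 hx2

/-- `m ∣ d`, norm `±1` -/
theorem cop_t {d : ℕ} {t u : ℤ} (h : t ^ 2 - d * u ^ 2 = 1 ∨ t ^ 2 - d * u ^ 2 = -1) {m : ℕ}
    (hmd : m ∣ d) : IsCoprime (m : ℤ) t := by
  obtain ⟨q, hq⟩ := hmd
  have hq' : (d : ℤ) = m * q := by exact_mod_cast hq
  rw [hq'] at h
  rcases h with h | h
  · exact ⟨-(q * u ^ 2), t, by linarith⟩
  · exact ⟨q * u ^ 2, -t, by linarith⟩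

theorem cop_c {n : ℕ} {x : ℤ} {d j : ℕ} {Z : ℤ} (hn : n ∣ d) (hj : Nat.Coprime n (j + 1))
    (hx : IsCoprime (n : ℤ) x) : IsCoprime (n : ℤ) ((j + 1) * x ^ j + d * Z) := by
  obtain ⟨q, hq⟩ := hn
  have hq' : (d : ℤ) = n * q := by exact_mod_cast hq
  rw [hq', mul_assoc]
  apply IsCoprime.add_mul_left_right
  apply IsCoprime.mul_right _ hx.pow_right
  have := Nat.isCoprime_iff_coprime.2 hj
  push_cast at this
  exact this

/-- positivity of the coordinates of the fundamental unit -/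
theorem coord_pos {d : ℕ} (h1 : 1 < d) {x y : ℤ}
    (h : x ^ 2 - d * y ^ 2 = 4 ∨ x ^ 2 - d * y ^ 2 = -4) (hv : 1 < (x + y * √(d : ℝ)) / 2) : 0 < x ∧ 0 < y :=
  pos_of_gt d (by omega) 2 (by norm_num) x y (by norm_num; exact h) (by push_cast; linarith)

/-- the exponent is at most two -/
theorem exp_le_two {d : ℕ} (hd : Squarefree d) (h1 : 1 < d) {t u : ℤ} (hf : IsFundamental d t u)
    (m P κ X V k : ℕ) (hm : Squarefree m) (hmd : m ∣ d) (hXV : X ^ 2 = d * V ^ 2 + 1)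
    (hbig1 : 4 * X ^ 2 * 4 ^ (P + 1) ≤ d ^ (P + 1))
    (hbig2 : 4 * X ^ 2 * (64 * (2 * P) ^ (6 * κ)) ≤ (m ^ (2 * κ) * d) ^ 3) (hmV : m ^ κ ∣ V)
    (hk : (X : ℝ) + V * √(d : ℝ) = unitVal d t u ^ k) : k ≤ 2 := by
  by_contra hcon
  push Not at hcon
  have hkP := exp_le h1 hf P X V k hXV hbig1 hk
  obtain ⟨x, y, hxy, hval, -⟩ := pair_coord hf.1
  have hε1 := hf.2.1
  rw [hval] at hε1 hk
  obtain ⟨hx0, hy0⟩ := coord_pos h1 hxy hε1
  obtain ⟨j, rfl⟩ := Nat.exists_eq_succ_of_ne_zero (by omega : k ≠ 0)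
  rw [Nat.succ_eq_add_one] at hk hkP hcon
  obtain ⟨Z, hZ⟩ := coef_eq hd h1 X V j hk
  have hm0 : 0 < m := Nat.pos_of_ne_zero hm.ne_zero
  -- the part of `m` prime to `2 k`
  obtain ⟨n, hn⟩ := Nat.gcd_dvd_left m (2 * (j + 1))
  set g := Nat.gcd m (2 * (j + 1)) with hg
  have hg0 : 0 < g := Nat.gcd_pos_of_pos_left _ hm0
  have hgle : g ≤ 2 * (j + 1) := Nat.le_of_dvd (by omega) (Nat.gcd_dvd_right _ _)
  have hcop : Nat.Coprime n (2 * (j + 1)) := by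
    rw [Nat.coprime_iff_gcd_eq_one]
    by_contra hne
    obtain ⟨p, hp, hpg⟩ := Nat.exists_prime_and_dvd hne
    have h2 : p ∣ n := hpg.trans (Nat.gcd_dvd_left _ _)
    have h3 : p ∣ 2 * (j + 1) := hpg.trans (Nat.gcd_dvd_right _ _)
    have h4 : p ∣ m := by rw [hn]; exact h2.mul_left _
    have h5 : p ∣ g := Nat.dvd_gcd h4 h3
    have h6 : p * p ∣ m := by rw [hn]; exact mul_dvd_mul h5 h2
    have h7 := hm p h6
    rw [Nat.isUnit_iff] at h7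
    exact hp.one_lt.ne' h7
  have hnm : n ∣ m := ⟨g, by rw [hn]; ring⟩
  have hnd : n ∣ d := hnm.trans hmd
  have hn2 : n % 2 = 1 := by
    have h2 : Nat.Coprime n 2 := Nat.Coprime.coprime_mul_right_right hcop
    rw [Nat.coprime_comm, Nat.prime_two.coprime_iff_not_dvd] at h2
    omega
  have hnc := cop_c (Z := Z) hnd (Nat.Coprime.coprime_mul_left_right hcop) (cop_x hxy hn2 hnd)
  have hny : ((n : ℤ) ^ κ) ∣ y := by
    have h2 : ((n : ℤ) ^ κ) ∣ (V : ℤ) := by exact_mod_cast (pow_dvd_pow_of_dvd hnm κ).trans hmV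
    have h3 : ((n : ℤ) ^ κ) ∣ y * ((j + 1) * x ^ j + d * Z) := by
      rw [← hZ]
      exact h2.mul_left _
    exact (hnc.pow_left).dvd_of_dvd_mul_right h3
  have hnle : (n : ℤ) ^ κ ≤ y := Int.le_of_dvd hy0 hny
  have hmn : m ≤ 2 * P * n := by
    rw [hn]
    exact Nat.mul_le_mul_right _ (hgle.trans (by omega))
  -- real estimates
  have hsq : √(d : ℝ) ^ 2 = d := Real.sq_sqrt (by positivity)
  have hs : (0 : ℝ) < √(d : ℝ) := Real.sqrt_pos.2 (by exact_mod_cast (by omega : 0 < d))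
  set ε : ℝ := (x + y * √(d : ℝ)) / 2 with hε
  have hx0' : (0 : ℝ) < x := by exact_mod_cast hx0
  have hnle' : (n : ℝ) ^ κ ≤ y := by exact_mod_cast hnle
  have hε2 : (n : ℝ) ^ κ * √(d : ℝ) < 2 * ε := by
    have := mul_le_mul_of_nonneg_right hnle' hs.le
    rw [hε]
    linarith
  have hXVr : (X : ℝ) ^ 2 = d * (V : ℝ) ^ 2 + 1 := by exact_mod_cast hXV
  have h2 : (V : ℝ) * √(d : ℝ) ≤ X := by
    apply le_of_sq_le_sq _ (by positivity)
    rw [mul_pow, hsq, hXVr]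
    linarith
  have h3 : ε ^ 3 ≤ 2 * X := by
    calc ε ^ 3 ≤ ε ^ (j + 1) := pow_le_pow_right₀ hε1.le hcon
      _ = (X : ℝ) + V * √(d : ℝ) := hk.symm
      _ ≤ 2 * X := by linarith
  have h4 : ((n : ℝ) ^ κ * √(d : ℝ)) ^ 6 < (2 * ε) ^ 6 := pow_lt_pow_left₀ hε2 (by positivity) (by norm_num)
  have h5 : (2 * ε) ^ 6 ≤ 64 * (2 * (X : ℝ)) ^ 2 := by
    have h6 : (ε ^ 3) ^ 2 ≤ (2 * (X : ℝ)) ^ 2 := pow_le_pow_left₀ (by positivity) h3 2
    calc (2 * ε) ^ 6 = 64 * (ε ^ 3) ^ 2 := by ring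
      _ ≤ _ := by linarith
  have h6 : ((n : ℝ) ^ κ * √(d : ℝ)) ^ 6 = ((n : ℝ) ^ (2 * κ) * d) ^ 3 := by
    calc ((n : ℝ) ^ κ * √(d : ℝ)) ^ 6 = ((n : ℝ) ^ κ) ^ 6 * (√(d : ℝ) ^ 2) ^ 3 := by ring
      _ = ((n : ℝ) ^ (2 * κ) * d) ^ 3 := by rw [hsq]; ring
  rw [h6] at h4
  have h7 : ((m ^ (2 * κ) * d : ℕ) : ℝ) ^ 3 ≤ (2 * P : ℝ) ^ (6 * κ) * ((n : ℝ) ^ (2 * κ) * d) ^ 3 := by
    have h8 : (m : ℝ) ≤ 2 * P * n := by exact_mod_cast hmn
    have h9 : (m : ℝ) ^ (2 * κ) ≤ (2 * P * n : ℝ) ^ (2 * κ) := pow_le_pow_left₀ (by positivity) h8 _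
    have h10 : (m : ℝ) ^ (2 * κ) * d ≤ (2 * P * n : ℝ) ^ (2 * κ) * d := mul_le_mul_of_nonneg_right h9 (by positivity)
    have h11 : ((m : ℝ) ^ (2 * κ) * d) ^ 3 ≤ ((2 * P * n : ℝ) ^ (2 * κ) * d) ^ 3 :=
      pow_le_pow_left₀ (by positivity) h10 3
    push_cast
    calc ((m : ℝ) ^ (2 * κ) * d) ^ 3 ≤ ((2 * P * n : ℝ) ^ (2 * κ) * d) ^ 3 := h11
      _ = (2 * P : ℝ) ^ (6 * κ) * ((n : ℝ) ^ (2 * κ) * d) ^ 3 := by
          rw [mul_pow (2 * (P : ℝ)) (n : ℝ) (2 * κ), mul_assoc, mul_pow _ _ 3, ← pow_mul]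
          congr 2
          ring
  have h12 : (4 : ℝ) * X ^ 2 * (64 * (2 * P) ^ (6 * κ)) ≤ ((m ^ (2 * κ) * d : ℕ) : ℝ) ^ 3 := by
    exact_mod_cast hbig2
  have hP0 : (0 : ℝ) < (2 * P : ℝ) ^ (6 * κ) := by
    have : (0 : ℝ) < P := by
      have : 0 < P := by omega
      exact_mod_cast this
    positivity
  have h13 : (2 * P : ℝ) ^ (6 * κ) * ((n : ℝ) ^ (2 * κ) * d) ^ 3 < (2 * P : ℝ) ^ (6 * κ) * (64 * (2 * (X : ℝ)) ^ 2) :=
    mul_lt_mul_of_pos_left (h4.trans_le h5) hP0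
  have h14 : (2 * P : ℝ) ^ (6 * κ) * (64 * (2 * (X : ℝ)) ^ 2) = 4 * X ^ 2 * (64 * (2 * P) ^ (6 * κ)) := by ring
  linarith

theorem transfer2 {d : ℕ} (hd : Squarefree d) (h1 : 1 < d) {t u : ℤ} (hf : IsFundamental d t u)
    (m P κ X V : ℕ) (hm : Squarefree m) (hmd : m ∣ d) (hXV : X ^ 2 = d * V ^ 2 + 1) (hV : 0 < V)
    (hbig1 : 4 * X ^ 2 * 4 ^ (P + 1) ≤ d ^ (P + 1))
    (hbig2 : 4 * X ^ 2 * (64 * (2 * P) ^ (6 * κ)) ≤ (m ^ (2 * κ) * d) ^ 3) (hmV : 2 * m ^ κ ∣ V) :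
    ((m : ℤ) ^ κ) ∣ u := by
  have hs : (0 : ℝ) < √(d : ℝ) := Real.sqrt_pos.2 (by exact_mod_cast (by omega : 0 < d))
  have hXVz : (X : ℤ) ^ 2 = d * (V : ℤ) ^ 2 + 1 := by exact_mod_cast hXV
  have hX : 0 < X := by
    rcases Nat.eq_zero_or_pos X with h | h
    · subst h; simp at hXV
    · exact h
  have hηU : IsU d ((X : ℝ) + V * √(d : ℝ)) := by
    refine ⟨2 * X, 2 * V, Or.inl ?_, ?_⟩
    · linear_combination 4 * hXVz
    · push_cast; ring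
  have hη1 : (1 : ℝ) < (X : ℝ) + V * √(d : ℝ) := by
    have h2 : (1 : ℝ) ≤ X := by exact_mod_cast hX
    have h3 : (0 : ℝ) < V := by exact_mod_cast hV
    have := mul_pos h3 hs
    linarith
  obtain ⟨k, hk⟩ := eq_pow (mod4' hd) hf hηU hη1
  have hk2 := exp_le_two hd h1 hf m P κ X V k hm hmd hXV hbig1 hbig2 ((dvd_mul_left _ _).trans hmV) hk
  have hk0 : k ≠ 0 := by
    rintro rfl
    rw [pow_zero] at hk
    linarith
  have hmV' : ((m : ℤ) ^ κ) ∣ (V : ℤ) := by exact_mod_cast (dvd_mul_left _ _).trans hmV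
  have hf1 := hf.1
  unfold IsUnitPair at hf1
  unfold unitVal at hk
  by_cases h4 : d % 4 = 1
  · rw [if_pos h4] at hf1 hk
    have hmo : m % 2 = 1 := by
      rcases Nat.mod_two_eq_zero_or_one m with h | h
      · exfalso
        have := (Nat.dvd_of_mod_eq_zero h).trans hmd
        omega
      · exact h
    rcases (by omega : k = 1 ∨ k = 2) with rfl | rfl
    · rw [← coef_one hd h1 X V hk]
      exact hmV'.mul_left 2
    · have h5 := coef_two hd h1 X V hk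
      have h6 : ((m : ℤ) ^ κ) ∣ t * u := by
        rw [← h5]
        exact hmV'.mul_left 2
      exact ((cop_x hf1 hmo hmd).pow_left).dvd_of_dvd_mul_left h6
  · rw [if_neg h4] at hf1 hk
    have hk' : (X : ℝ) + V * √(d : ℝ) = ((((2 * t : ℤ) : ℝ) + ((2 * u : ℤ) : ℝ) * √(d : ℝ)) / 2) ^ k := by
      rw [hk]
      congr 1
      push_cast
      ring
    rcases (by omega : k = 1 ∨ k = 2) with rfl | rfl
    · have h5 := coef_one hd h1 X V hk'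
      have h6 : u = V := by linarith
      rw [h6]
      exact hmV'
    · have h5 := coef_two hd h1 X V hk'
      have h6 : (V : ℤ) = 2 * (t * u) := by linarith
      have h7 : (2 : ℤ) * (m : ℤ) ^ κ ∣ 2 * (t * u) := by
        rw [← h6]
        exact_mod_cast hmV
      have h8 : ((m : ℤ) ^ κ) ∣ t * u := (mul_dvd_mul_iff_left (by norm_num)).1 h7
      exact ((cop_t hf1 hmd).pow_left).dvd_of_dvd_mul_left h8

end Pool.Agent.Helper29.LDV
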