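import Pool.Agent.Helper29.LDV.Units

/-!
# LDV/Transfer: from the coefficient of a small power of the fundamental unit to the coefficient of the
fundamental unit
-/

set_option autoImplicit false

namespace Pool.Agent.Helper29.LDV

open Pool.Agent.Helper51.Pell

private theorem not_square {d : ℕ} (hd : Squarefree d) (h1 : 1 < d) : ∀ n : ℤ, (d : ℤ) ≠ n * n := by
  intro r hr
  have h2 : d = r.natAbs * r.natAbs := by
    have h3 : ((r.natAbs * r.natAbs : ℕ) : ℤ) = r * r := by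
      push_cast
      exact abs_mul_abs_self r
    have h4 : ((d : ℕ) : ℤ) = ((r.natAbs * r.natAbs : ℕ) : ℤ) := by rw [h3, hr]
    exact_mod_cast h4
  have h5 : IsUnit r.natAbs := hd _ (by rw [← h2])
  rw [Nat.isUnit_iff] at h5
  rw [h5] at h2
  omega

private theorem mod4 {d : ℕ} (hd : Squarefree d) : d % 4 ≠ 0 := by
  intro h
  have h1 : 2 * 2 ∣ d := Nat.dvd_of_mod_eq_zero (by omega)
  have h2 := hd 2 h1
  rw [Nat.isUnit_iff] at h2
  omega

/-- the fundamental unit exceeds `√d / 2` -/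
theorem eps_gt {d : ℕ} (h1 : 1 < d) {t u : ℤ} (hf : IsFundamental d t u) : √(d : ℝ) / 2 < unitVal d t u := by
  have hs : (0 : ℝ) < √(d : ℝ) := Real.sqrt_pos.2 (by exact_mod_cast (by omega : 0 < d))
  obtain ⟨h, hv, -⟩ := hf
  unfold IsUnitPair at h
  unfold unitVal at hv ⊢
  by_cases h4 : d % 4 = 1
  · rw [if_pos h4] at h hv ⊢
    obtain ⟨h5, h6⟩ := pos_of_gt d (by omega) 2 (by norm_num) t u (by norm_num; exact h)
      (by push_cast; linarith)
    have h5' : (1 : ℝ) ≤ t := by exact_mod_cast h5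
    have h6' : (1 : ℝ) ≤ u := by exact_mod_cast h6
    nlinarith
  · rw [if_neg h4] at h hv ⊢
    obtain ⟨h5, h6⟩ := pos_of_gt d (by omega) 1 (by norm_num) t u (by norm_num; exact h)
      (by push_cast; linarith)
    have h5' : (1 : ℝ) ≤ t := by exact_mod_cast h5
    have h6' : (1 : ℝ) ≤ u := by exact_mod_cast h6
    nlinarith

/-- the exponent of a small unit is small -/
theorem exp_le {d : ℕ} (h1 : 1 < d) {t u : ℤ} (hf : IsFundamental d t u) (P X V k : ℕ)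
    (hXV : X ^ 2 = d * V ^ 2 + 1) (hbig : 4 * X ^ 2 * 4 ^ (P + 1) ≤ d ^ (P + 1))
    (hk : (X : ℝ) + V * √(d : ℝ) = unitVal d t u ^ k) : k ≤ P := by
  by_contra hcon
  push Not at hcon
  have hε := eps_gt h1 hf
  have hε1 := hf.2.1
  set ε := unitVal d t u
  have hsq : √(d : ℝ) ^ 2 = d := Real.sq_sqrt (by positivity)
  have hs : (0 : ℝ) < √(d : ℝ) := Real.sqrt_pos.2 (by exact_mod_cast (by omega : 0 < d))
  have hXVr : (X : ℝ) ^ 2 = d * (V : ℝ) ^ 2 + 1 := by exact_mod_cast hXV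
  have h2 : (V : ℝ) * √(d : ℝ) ≤ X := by
    apply le_of_sq_le_sq _ (by positivity)
    rw [mul_pow, hsq, hXVr]
    linarith
  have h3 : (√(d : ℝ) / 2) ^ (P + 1) < ε ^ (P + 1) := pow_lt_pow_left₀ hε (by positivity) (by omega)
  have h4 : ε ^ (P + 1) ≤ ε ^ k := pow_le_pow_right₀ hε1.le hcon
  have h5 : (√(d : ℝ) / 2) ^ (P + 1) < 2 * X := by linarith
  have h6 : ((√(d : ℝ) / 2) ^ (P + 1)) ^ 2 < (2 * (X : ℝ)) ^ 2 := pow_lt_pow_left₀ h5 (by positivity) (by norm_num)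
  have h7 : ((√(d : ℝ) / 2) ^ (P + 1)) ^ 2 = (d : ℝ) ^ (P + 1) / 4 ^ (P + 1) := by
    rw [← pow_mul, mul_comm (P + 1) 2, pow_mul, div_pow, hsq, div_pow]
    norm_num
  rw [h7, div_lt_iff₀ (by positivity)] at h6
  have h8 : (4 : ℝ) * X ^ 2 * 4 ^ (P + 1) ≤ d ^ (P + 1) := by exact_mod_cast hbig
  linarith

theorem transfer {d : ℕ} (hd : Squarefree d) (h1 : 1 < d) {t u : ℤ} (hf : IsFundamental d t u)
    (m P κ X V : ℕ) (hm : m % 2 = 1) (hmd : m ∣ d) (hP : ∀ p : ℕ, p.Prime → p ∣ m → P < p)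
    (hXV : X ^ 2 = d * V ^ 2 + 1) (hV : 0 < V) (hbig : 4 * X ^ 2 * 4 ^ (P + 1) ≤ d ^ (P + 1))
    (hmV : m ^ κ ∣ V) : ((m : ℤ) ^ κ) ∣ u := by
  have hs : (0 : ℝ) < √(d : ℝ) := Real.sqrt_pos.2 (by exact_mod_cast (by omega : 0 < d))
  have hXVz : (X : ℤ) ^ 2 = d * (V : ℤ) ^ 2 + 1 := by exact_mod_cast hXV
  have hX : 0 < X := by
    rcases Nat.eq_zero_or_pos X with h | h
    · subst h; simp at hXV
    · exact h
  have hηU : IsU d ((X : ℝ) + V * √(d : ℝ)) := by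
    refine ⟨2 * X, 2 * V, Or.inl ?_, ?_⟩
    · linear_combination 4 * hXVz
    · push_cast; ring
  have hη1 : (1 : ℝ) < (X : ℝ) + V * √(d : ℝ) := by
    have h2 : (1 : ℝ) ≤ X := by exact_mod_cast hX
    have h3 : (0 : ℝ) < V := by exact_mod_cast hV
    have := mul_pos h3 hs
    linarith
  obtain ⟨k, hk⟩ := eq_pow (mod4 hd) hf hηU hη1
  have hkP := exp_le h1 hf P X V k hXV hbig hk
  have hk0 : k ≠ 0 := by
    rintro rfl
    rw [pow_zero] at hk
    linarith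
  obtain ⟨j, rfl⟩ := Nat.exists_eq_succ_of_ne_zero hk0
  obtain ⟨x, y, hxy, hval, hyu⟩ := pair_coord hf.1
  -- the identity in ℤ√d
  have hd0 : (0 : ℤ) ≤ (d : ℤ) := by positivity
  have hring : ((2 ^ (j + 1) : ℤ) : ℤ√(d : ℤ)) * ⟨(X : ℤ), (V : ℤ)⟩ = (⟨x, y⟩ : ℤ√(d : ℤ)) ^ (j + 1) := by
    apply Zsqrtd.toReal_injective hd0 (not_square hd h1)
    rw [map_mul, map_pow]
    have e1 : Zsqrtd.toReal hd0 (⟨(X : ℤ), (V : ℤ)⟩ : ℤ√(d : ℤ)) = (X : ℝ) + V * √(d : ℝ) := by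
      simp [Zsqrtd.toReal]
    have e2 : Zsqrtd.toReal hd0 (⟨x, y⟩ : ℤ√(d : ℤ)) = (x : ℝ) + y * √(d : ℝ) := by
      simp [Zsqrtd.toReal]
    have e3 : Zsqrtd.toReal hd0 ((2 ^ (j + 1) : ℤ) : ℤ√(d : ℤ)) = (2 : ℝ) ^ (j + 1) := by
      rw [map_intCast]; push_cast; rfl
    rw [e1, e2, e3, hk, hval, ← mul_pow]
    congr 1
    ring
  obtain ⟨W, Z, hpow⟩ := zpow_coord (d : ℤ) x y j
  rw [hpow] at hring
  have him : (2 : ℤ) ^ (j + 1) * V = y * ((j + 1) * x ^ j + d * Z) := by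
    have := congrArg Zsqrtd.im hring
    rw [Zsqrtd.im_mul, Zsqrtd.re_intCast, Zsqrtd.im_intCast, zero_mul, add_zero] at this
    exact this
  set c : ℤ := (j + 1) * x ^ j + d * Z with hc
  have hcop : IsCoprime (m : ℤ) c := by
    rw [Int.isCoprime_iff_gcd_eq_one]
    by_contra hg
    obtain ⟨p, hp, hpg⟩ := Nat.exists_prime_and_dvd hg
    have hpm : (p : ℤ) ∣ m := (Int.natCast_dvd_natCast.2 hpg).trans (Int.gcd_dvd_left _ _)
    have hpc : (p : ℤ) ∣ c := (Int.natCast_dvd_natCast.2 hpg).trans (Int.gcd_dvd_right _ _)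
    have hpm' : p ∣ m := by exact_mod_cast hpm
    have hpd : (p : ℤ) ∣ d := by exact_mod_cast hpm'.trans hmd
    have hpZ : Prime (p : ℤ) := Nat.prime_iff_prime_int.1 hp
    have hp2 : p ≠ 2 := by
      rintro rfl
      omega
    rw [hc, dvd_add_left (hpd.mul_right Z)] at hpc
    rcases hpZ.dvd_or_dvd hpc with h2 | h2
    · have h3 : p ∣ j + 1 := by exact_mod_cast h2
      have h4 := Nat.le_of_dvd (by omega) h3
      have h5 := hP p hp hpm'
      omega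
    · have h3 := hpZ.dvd_of_dvd_pow h2
      have h4 : (p : ℤ) ∣ x ^ 2 - d * y ^ 2 := dvd_sub (dvd_pow h3 (by norm_num)) (hpd.mul_right _)
      have h5 : (p : ℤ) ∣ 4 := by
        rcases hxy with h | h
        · rwa [h] at h4
        · rwa [h, dvd_neg] at h4
      have h6 : p ∣ 2 ^ 2 := by exact_mod_cast h5
      exact hp2 ((Nat.prime_dvd_prime_iff_eq hp Nat.prime_two).1 (hp.dvd_of_dvd_pow h6))
  have hmVz : ((m : ℤ) ^ κ) ∣ (V : ℤ) := by exact_mod_cast hmV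
  have h7 : ((m : ℤ) ^ κ) ∣ y * c := by
    rw [← him]
    exact hmVz.mul_left _
  have h8 : ((m : ℤ) ^ κ) ∣ y := (hcop.pow_left).dvd_of_dvd_mul_right h7
  rcases hyu with h | h
  · rwa [h] at h8
  · rw [h] at h8
    have h9 : IsCoprime (m : ℤ) 2 := by
      rw [Int.isCoprime_iff_gcd_eq_one]
      have : Nat.gcd m 2 = 1 := by
        rw [← Nat.coprime_iff_gcd_eq_one, Nat.coprime_comm, Nat.prime_two.coprime_iff_not_dvd]
        omega
      exact_mod_cast this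
    exact (h9.pow_left).dvd_of_dvd_mul_left h8

end Pool.Agent.Helper29.LDV
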