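import Pool.Agent.Helper51.Pell.Unit

/-!
# LDV/Units: a divisibility transfer from a power of the fundamental unit to the fundamental unit
-/

set_option autoImplicit false

namespace Pool.Agent.Helper29.LDV

open Pool.Agent.Helper51.Pell

/-- `r` is the value of a unit of the ring of integers of `ℚ(√d)` -/
def IsU (d : ℕ) (r : ℝ) : Prop :=
  ∃ x y : ℤ, (x ^ 2 - d * y ^ 2 = 4 ∨ x ^ 2 - d * y ^ 2 = -4) ∧ r = (x + y * √(d : ℝ)) / 2

theorem parity {d : ℕ} {x y : ℤ} (h : x ^ 2 - d * y ^ 2 = 4 ∨ x ^ 2 - d * y ^ 2 = -4) :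
    (Even x ↔ (Even (d : ℤ) ∨ Even y)) := by
  have h1 : Even (x ^ 2 - (d : ℤ) * y ^ 2) := by
    rcases h with h | h <;> rw [h]
    · exact ⟨2, by norm_num⟩
    · exact ⟨-2, by norm_num⟩
  rw [Int.even_sub, Int.even_pow' (by norm_num), Int.even_mul, Int.even_pow' (by norm_num)] at h1
  exact h1

theorem IsU.mul {d : ℕ} {r s : ℝ} (hr : IsU d r) (hs : IsU d s) : IsU d (r * s) := by
  obtain ⟨x, y, h1, rfl⟩ := hr
  obtain ⟨x', y', h2, rfl⟩ := hs
  have p1 := parity h1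
  have p2 := parity h2
  have e1 : Even (x * x' + d * y * y') := by
    rw [Int.even_add, Int.even_mul, Int.even_mul, Int.even_mul]
    tauto
  have e2 : Even (x * y' + x' * y) := by
    rw [Int.even_add, Int.even_mul, Int.even_mul]
    tauto
  obtain ⟨a, ha⟩ := e1
  obtain ⟨b, hb⟩ := e2
  have hsq : √(d : ℝ) ^ 2 = d := Real.sq_sqrt (by positivity)
  refine ⟨a, b, ?_, ?_⟩
  · have key : 4 * (a ^ 2 - d * b ^ 2) = (x ^ 2 - d * y ^ 2) * (x' ^ 2 - d * y' ^ 2) := by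
      have h3 : 4 * (a ^ 2 - d * b ^ 2) = (a + a) ^ 2 - d * (b + b) ^ 2 := by ring
      rw [h3, ← ha, ← hb]
      ring
    rcases h1 with h1 | h1 <;> rcases h2 with h2 | h2 <;> rw [h1, h2] at key
    · left; linarith
    · right; linarith
    · right; linarith
    · left; linarith
  · have ha' : (x : ℝ) * x' + d * y * y' = a + a := by exact_mod_cast ha
    have hb' : (x : ℝ) * y' + x' * y = b + b := by exact_mod_cast hb
    have h4 : ((x : ℝ) + y * √(d : ℝ)) / 2 * ((x' + y' * √(d : ℝ)) / 2) =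
        ((x * x' + d * y * y') + (x * y' + x' * y) * √(d : ℝ)) / 4 := by
      rw [← hsq]; 
      have h5 : √(√(d : ℝ) ^ 2) = √(d : ℝ) := by rw [hsq]
      rw [h5]
      ring
    rw [h4, ha', hb']
    ring

theorem IsU.inv {d : ℕ} {r : ℝ} (hr : IsU d r) : IsU d r⁻¹ := by
  obtain ⟨x, y, h1, rfl⟩ := hr
  have hsq : √(d : ℝ) * √(d : ℝ) = d := Real.mul_self_sqrt (by positivity)
  rcases h1 with h1 | h1
  · have h1' : (x : ℝ) ^ 2 - d * y ^ 2 = 4 := by exact_mod_cast h1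
    refine ⟨x, -y, Or.inl (by rw [← h1]; ring), ?_⟩
    have h2 : ((x : ℝ) + y * √(d : ℝ)) / 2 * ((x + ((-y : ℤ) : ℝ) * √(d : ℝ)) / 2) = 1 := by
      push_cast
      linear_combination (1 / 4 : ℝ) * h1' - (1 / 4 : ℝ) * (y : ℝ) ^ 2 * hsq
    exact inv_eq_of_mul_eq_one_right h2
  · have h1' : (x : ℝ) ^ 2 - d * y ^ 2 = -4 := by exact_mod_cast h1
    refine ⟨-x, y, Or.inr (by rw [← h1]; ring), ?_⟩
    have h2 : ((x : ℝ) + y * √(d : ℝ)) / 2 * ((((-x : ℤ) : ℝ) + y * √(d : ℝ)) / 2) = 1 := by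
      push_cast
      linear_combination -(1 / 4 : ℝ) * h1' + (1 / 4 : ℝ) * (y : ℝ) ^ 2 * hsq
    exact inv_eq_of_mul_eq_one_right h2

theorem isU_one (d : ℕ) : IsU d 1 := ⟨2, 0, Or.inl (by norm_num), by norm_num⟩

theorem IsU.pow {d : ℕ} {r : ℝ} (hr : IsU d r) (k : ℕ) : IsU d (r ^ k) := by
  induction k with
  | zero => rw [pow_zero]; exact isU_one d
  | succ k ih => rw [pow_succ]; exact ih.mul hr

/-- the integer coordinates `(x, y)` of the fundamental unit `(x + y √d) / 2` -/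
theorem pair_coord {d : ℕ} {t u : ℤ} (h : IsUnitPair d t u) :
    ∃ x y : ℤ, (x ^ 2 - d * y ^ 2 = 4 ∨ x ^ 2 - d * y ^ 2 = -4) ∧ unitVal d t u = (x + y * √(d : ℝ)) / 2 ∧
      (y = u ∨ y = 2 * u) := by
  unfold IsUnitPair at h
  unfold unitVal
  by_cases h4 : d % 4 = 1
  · rw [if_pos h4] at h ⊢
    exact ⟨t, u, h, rfl, Or.inl rfl⟩
  · rw [if_neg h4] at h ⊢
    refine ⟨2 * t, 2 * u, ?_, ?_, Or.inr rfl⟩
    · rcases h with h | h
      · left; linear_combination 4 * h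
      · right; linear_combination 4 * h
    · push_cast; ring

/-- every unit value comes from a unit pair -/
theorem pair_of_isU {d : ℕ} (hd : d % 4 ≠ 0) {r : ℝ} (hr : IsU d r) :
    ∃ t u : ℤ, IsUnitPair d t u ∧ unitVal d t u = r := by
  obtain ⟨x, y, h, rfl⟩ := hr
  unfold IsUnitPair unitVal
  by_cases h4 : d % 4 = 1
  · refine ⟨x, y, ?_, ?_⟩
    · rw [if_pos h4]; exact h
    · rw [if_pos h4]
  · have hmod : (x % 2 = 0) ∧ (y % 2 = 0) := by
      have hm : (x * x - (d : ℤ) * (y * y)) % 4 = 0 := by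
        rcases h with h | h
        · rw [show x * x - (d : ℤ) * (y * y) = x ^ 2 - d * y ^ 2 by ring, h]; rfl
        · rw [show x * x - (d : ℤ) * (y * y) = x ^ 2 - d * y ^ 2 by ring, h]; rfl
      have hx : x % 4 = 0 ∨ x % 4 = 1 ∨ x % 4 = 2 ∨ x % 4 = 3 := by omega
      have hy : y % 4 = 0 ∨ y % 4 = 1 ∨ y % 4 = 2 ∨ y % 4 = 3 := by omega
      have hd' : (d : ℤ) % 4 = 2 ∨ (d : ℤ) % 4 = 3 := by omega
      rw [Int.sub_emod, Int.mul_emod, Int.mul_emod (d : ℤ), Int.mul_emod y] at hm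
      rcases hx with hx | hx | hx | hx <;> rcases hy with hy | hy | hy | hy <;>
        rcases hd' with hd' | hd' <;> rw [hx, hy, hd'] at hm <;> norm_num at hm <;>
        constructor <;> omega
    obtain ⟨hx, hy⟩ := hmod
    obtain ⟨t, rfl⟩ := Int.dvd_of_emod_eq_zero hx
    obtain ⟨u, rfl⟩ := Int.dvd_of_emod_eq_zero hy
    refine ⟨t, u, ?_, ?_⟩
    · rw [if_neg h4]
      rcases h with h | h
      · left; linarith
      · right; linarith
    · rw [if_neg h4]; push_cast; ring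

/-- every unit greater than one is a power of the fundamental unit -/
theorem eq_pow {d : ℕ} (hd : d % 4 ≠ 0) {t u : ℤ} (hf : IsFundamental d t u) {η : ℝ} (hη : IsU d η)
    (h1 : 1 < η) : ∃ k : ℕ, η = unitVal d t u ^ k := by
  obtain ⟨hp, hε, hmin⟩ := hf
  set ε := unitVal d t u with hεdef
  have hεU : IsU d ε := by
    obtain ⟨x, y, h2, h3, -⟩ := pair_coord hp
    exact ⟨x, y, h2, h3⟩
  obtain ⟨k, hk1, hk2⟩ := exists_nat_pow_near h1.le hε
  refine ⟨k, ?_⟩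
  have hε0 : 0 < ε := by linarith
  have hεk : 0 < ε ^ k := pow_pos hε0 k
  have hq : IsU d (η * (ε ^ k)⁻¹) := hη.mul (hεU.pow k).inv
  have hq1 : 1 ≤ η * (ε ^ k)⁻¹ := by
    rw [← div_eq_mul_inv, le_div_iff₀ hεk, one_mul]; exact hk1
  have hq2 : η * (ε ^ k)⁻¹ < ε := by
    rw [← div_eq_mul_inv, div_lt_iff₀ hεk]
    rw [pow_succ] at hk2
    linarith
  rcases hq1.eq_or_lt with h2 | h2
  · have : η = 1 * ε ^ k := by
      rw [h2, mul_assoc, inv_mul_cancel₀ hεk.ne', mul_one]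
    rw [this, one_mul]
  · exfalso
    obtain ⟨t', u', h3, h4⟩ := pair_of_isU hd hq
    have := hmin t' u' h3 (by rw [h4]; exact h2)
    rw [h4] at this
    linarith

/-- the coordinates of a power, modulo `d` -/
theorem zpow_coord (d x y : ℤ) (k : ℕ) :
    ∃ W Z : ℤ, (⟨x, y⟩ : ℤ√d) ^ (k + 1) = ⟨x ^ (k + 1) + d * W, y * ((k + 1) * x ^ k + d * Z)⟩ := by
  induction k with
  | zero => exact ⟨0, 0, by ext <;> simp⟩
  | succ k ih =>
    obtain ⟨W, Z, h⟩ := ih
    rw [pow_succ, h]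
    refine ⟨W * x + y * ((k + 1) * x ^ k + d * Z) * y, W + Z * x, ?_⟩
    ext
    · simp only [Zsqrtd.re_mul]
      ring
    · simp only [Zsqrtd.im_mul]
      push_cast
      ring

end Pool.Agent.Helper29.LDV
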